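import Pool.Agent.Helper37.Mader.Basic

set_option autoImplicit false

/-!
# Menger's theorem, in the form needed for k-connected digraphs
-/

namespace Pool.Agent.Helper37.Mader

variable {V : Type*}

/-- `k` pairwise internally disjoint directed paths from `a` to `b` inside `W` -/
def PathsIn (r : V → V → Prop) (W : Set V) (k : ℕ) (a b : V) : Prop :=
  ∃ p : Fin k → List V, Function.Injective p ∧
    (∀ i, (p i).head? = some a ∧ (p i).getLast? = some b ∧ (p i).Nodup ∧
      (∀ v ∈ p i, v ∈ W) ∧
      ∀ (j : ℕ) (u w : V), (p i)[j]? = some u → (p i)[j+1]? = some w → r u w) ∧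
    ∀ i j, i ≠ j → ∀ v, v ∈ p i → v ∈ p j → v = a ∨ v = b

/-- a path which leaves `A` does so along an arc -/
lemma exists_leave {r : V → V → Prop} (A : Set V) : ∀ (l : List V) (a b : V),
    l.head? = some a → l.getLast? = some b → a ∈ A → b ∉ A →
    (∀ (j : ℕ) (u w : V), l[j]? = some u → l[j+1]? = some w → r u w) →
    ∃ w ∈ l, w ∉ A ∧ ∃ u ∈ A, r u w := by
  intro l
  induction l with
  | nil => intro a b h; simp at h
  | cons x l ih =>
    intro a b ha hb haA hbA hadj
    simp only [List.head?_cons, Option.some.injEq] at ha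
    subst ha
    cases l with
    | nil =>
      simp only [List.getLast?_singleton, Option.some.injEq] at hb
      subst hb
      exact absurd haA hbA
    | cons y l =>
      have hxy : r x y := hadj 0 x y (by simp) (by simp)
      by_cases hy : y ∈ A
      · obtain ⟨w, hw, hwA, u, hu, hr⟩ := ih y b (by simp) (by rw [← hb]; simp [List.getLast?_cons_cons])
          hy hbA (fun j u w h1 h2 => hadj (j+1) u w (by simpa using h1) (by simpa using h2))
        exact ⟨w, List.mem_cons_of_mem _ hw, hwA, u, hu, hr⟩
      · exact ⟨y, by simp, hy, x, haA, hxy⟩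

/-- the easy direction -/
lemma le_of_paths [Fintype V] [DecidableEq V] {r : V → V → Prop} {W : Finset V} {k : ℕ} {a b : V}
    {A B : Finset V} (hs : Sep r A B) (ha : a ∈ A) (hb : b ∈ B)
    (hp : PathsIn r (W : Set V) k a b) : k ≤ (W \ (A ∪ B)).card := by
  obtain ⟨p, -, hp1, hp2⟩ := hp
  have hex : ∀ i, ∃ t ∈ p i, t ∈ W \ (A ∪ B) := by
    intro i
    obtain ⟨h1, h2, h3, h4, h5⟩ := hp1 i
    obtain ⟨w, hw, hwA, u, hu, hr⟩ := exists_leave (r := r) (A : Set V) (p i) a b h1 h2 ha
      (fun h => hs.not_mem h hb) h5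
    refine ⟨w, hw, ?_⟩
    rw [Finset.mem_sdiff, Finset.mem_union, not_or]
    exact ⟨h4 w hw, hwA, fun h => (hs u hu w h).2 hr⟩
  choose t ht ht' using hex
  have hinj : Function.Injective t := by
    intro i j hij
    by_contra hne
    have h1 := hp2 i j hne (t i) (ht i) (by rw [hij]; exact ht j)
    have h2 := ht' i
    rw [Finset.mem_sdiff, Finset.mem_union, not_or] at h2
    rcases h1 with h | h
    · exact h2.2.1 (by rw [h]; exact ha)
    · exact h2.2.2 (by rw [h]; exact hb)
  have := Finset.card_le_card_of_injOn t (s := Finset.univ) (t := W \ (A ∪ B))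
    (fun i _ => ht' i) (hinj.injOn)
  simpa using this

section hall

variable [Fintype V] [DecidableEq V] {r : V → V → Prop} {W : Finset V} {k : ℕ} {a b : V}

/-- the relation of the bipartite graph -/
def ok (r : V → V → Prop) (W : Finset V) (k : ℕ) (a b : V) :
    ({v : V // v ∈ W ∧ v ≠ a ∧ v ≠ b} ⊕ Fin k) → ({v : V // v ∈ W ∧ v ≠ a ∧ v ≠ b} ⊕ Fin k) → Prop
  | .inl v, .inl w => v = w ∨ r v.1 w.1
  | .inl v, .inr _ => r v.1 b
  | .inr _, .inl w => r a w.1
  | .inr _, .inr _ => False

/-- the value of a vertex -/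
def vl (b : V) {a : V} : ({v : V // v ∈ W ∧ v ≠ a ∧ v ≠ b} ⊕ Fin k) → V
  | .inl v => v.1
  | .inr _ => b

omit [Fintype V] [DecidableEq V] in
/-- from an injective map to paths; all paths have an inner vertex -/
lemma paths_of_inj (hab : a ≠ b) (ha : a ∈ W) (hb : b ∈ W)
    (f : ({v : V // v ∈ W ∧ v ≠ a ∧ v ≠ b} ⊕ Fin k) → ({v : V // v ∈ W ∧ v ≠ a ∧ v ≠ b} ⊕ Fin k))
    (hf : Function.Injective f) (hok : ∀ x, ok r W k a b x (f x))
    (hfin : Finite ({v : V // v ∈ W ∧ v ≠ a ∧ v ≠ b} ⊕ Fin k)) :
    ∃ p : Fin k → List V, 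
      (∀ i, (p i).head? = some a ∧ (p i).getLast? = some b ∧ (p i).Nodup ∧
        (∀ v ∈ p i, v ∈ (W : Set V)) ∧
        ∀ (j : ℕ) (u w : V), (p i)[j]? = some u → (p i)[j+1]? = some w → r u w) ∧
      (∀ i j, i ≠ j → ∀ v, v ∈ p i → v ∈ p j → v = a ∨ v = b) ∧
      ∀ i, ∃ v ∈ p i, v ≠ a ∧ v ≠ b := by
  classical
  -- return times
  have hret : ∀ i : Fin k, ∃ n, 0 < n ∧ ∃ j, f^[n] (.inr i) = .inr j := by
    intro i
    have := hf.mem_periodicPts (Sum.inr i)
    obtain ⟨n, hn, hper⟩ := Function.mem_periodicPts.1 this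
    exact ⟨n, hn, i, hper⟩
  let nn : Fin k → ℕ := fun i => Nat.find (hret i)
  have hnpos : ∀ i, 0 < nn i := fun i => (Nat.find_spec (hret i)).1
  have hnend : ∀ i, ∃ j, f^[nn i] (.inr i) = .inr j := fun i => (Nat.find_spec (hret i)).2
  have hnmin : ∀ i n, 0 < n → n < nn i → ∃ v, f^[n] (.inr i) = .inl v := by
    intro i n hn hlt
    have h1 := Nat.find_min (hret i) hlt
    push Not at h1
    have h2 := h1 hn
    rcases hx : f^[n] (.inr i) with v | j
    · exact ⟨v, rfl⟩
    · exact absurd hx (h2 j)
  -- distinctness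
  have hdist : ∀ i j s t, s < nn i → t < nn j → f^[s] (.inr i) = f^[t] (.inr j) → i = j ∧ s = t := by
    have aux : ∀ i j s t, s ≤ t → s < nn i → t < nn j → f^[s] (.inr i) = f^[t] (.inr j) →
        i = j ∧ s = t := by
      intro i j s t hst hs ht h
      obtain ⟨d, rfl⟩ := Nat.exists_eq_add_of_le hst
      rw [Function.iterate_add_apply] at h
      have h1 := (hf.iterate s) h
      rcases Nat.eq_zero_or_pos d with hd | hd
      · subst hd
        simp only [Function.iterate_zero, id_eq, Sum.inr.injEq] at h1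
        exact ⟨h1, by omega⟩
      · obtain ⟨v, hv⟩ := hnmin j d hd (by omega)
        rw [hv] at h1
        exact absurd h1 (by simp)
    intro i j s t hs ht h
    rcases le_total s t with hst | hst
    · exact aux i j s t hst hs ht h
    · obtain ⟨h1, h2⟩ := aux j i t s hst ht hs h.symm
      exact ⟨h1.symm, h2.symm⟩
  let p : Fin k → List V := fun i =>
    a :: (List.range (nn i)).map (fun t => vl (W := W) (k := k) b (a := a) (f^[t+1] (.inr i)))
  have hvl_ne : ∀ x : ({v : V // v ∈ W ∧ v ≠ a ∧ v ≠ b} ⊕ Fin k), vl b x ≠ a := by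
    intro x
    rcases x with v | j
    · exact v.2.2.1
    · exact hab.symm
  have hmem : ∀ i v, v ∈ p i ↔ v = a ∨ ∃ t < nn i, vl b (f^[t+1] (.inr i)) = v := by
    intro i v
    simp [p]
  have hget : ∀ i t, t < nn i → (p i)[t+1]? = some (vl b (f^[t+1] (.inr i))) := by
    intro i t ht
    simp [p, ht]
  have hstep : ∀ i t, t + 1 < nn i → r (vl b (f^[t+1] (.inr i))) (vl b (f^[t+2] (.inr i))) := by
    intro i t ht
    obtain ⟨v, hv⟩ := hnmin i (t+1) (by omega) ht
    have h1 := hok (f^[t+1] (.inr i))
    rw [← Function.iterate_succ_apply' f] at h1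
    rw [hv] at h1 ⊢
    rcases hx : f^[t+1+1] (.inr i) with w | j
    · rw [hx] at h1
      have h2 : v = w ∨ r v.1 w.1 := h1
      rcases h2 with h2 | h2
      · exfalso
        subst h2
        rcases Nat.lt_or_ge (t+2) (nn i) with h3 | h3
        · have := (hdist i i (t+1) (t+2) ht h3 (by rw [hv, hx])).2
          omega
        · have h4 : nn i = t + 1 + 1 := by omega
          obtain ⟨j, hj⟩ := hnend i
          rw [h4, hx] at hj
          exact absurd hj (by simp)
      · exact h2
    · rw [hx] at h1
      exact h1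
  have hfirst : ∀ i, ∃ v, f (.inr i) = .inl v ∧ r a v.1 := by
    intro i
    have h1 := hok (.inr i)
    rcases hx : f (.inr i) with v | j
    · rw [hx] at h1
      exact ⟨v, rfl, h1⟩
    · rw [hx] at h1
      exact absurd h1 (by simp [ok])
  refine ⟨p, fun i => ⟨rfl, ?_, ?_, ?_, ?_⟩, ?_, ?_⟩
  · rw [List.getLast?_eq_getElem?]
    have hlen : (p i).length = nn i + 1 := by simp [p]
    have h1 := hnpos i
    rw [hlen]
    obtain ⟨m, hm⟩ : ∃ m, nn i = m + 1 := ⟨nn i - 1, by omega⟩
    rw [show nn i + 1 - 1 = m + 1 by omega, hget i m (by omega), ← hm]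
    obtain ⟨j, hj⟩ := hnend i
    rw [hj]
    rfl
  · simp only [p, List.nodup_cons, List.mem_map, List.mem_range, not_exists, not_and]
    refine ⟨fun t _ => hvl_ne _, ?_⟩
    rw [List.nodup_map_iff_inj_on List.nodup_range]
    intro s hs t ht hst
    rw [List.mem_range] at hs ht
    by_contra hne
    have aux : ∀ s t, s < t → t < nn i →
        vl b (f^[s+1] (.inr i)) = vl b (f^[t+1] (.inr i)) → False := by
      intro s t hst ht h
      obtain ⟨v, hv⟩ := hnmin i (s+1) (by omega) (by omega)
      rw [hv] at h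
      rcases Nat.lt_or_ge (t+1) (nn i) with h3 | h3
      · obtain ⟨w, hw⟩ := hnmin i (t+1) (by omega) h3
        rw [hw] at h
        have h4 : v = w := Subtype.ext h
        subst h4
        have := (hdist i i (s+1) (t+1) (by omega) h3 (by rw [hv, hw])).2
        omega
      · have h4 : nn i = t + 1 := by omega
        obtain ⟨j, hj⟩ := hnend i
        rw [← h4, hj] at h
        exact v.2.2.2 h
    rcases lt_or_gt_of_ne hne with h | h
    · exact aux s t h ht hst
    · exact aux t s h hs hst.symm
  · intro v hv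
    rw [hmem] at hv
    rcases hv with rfl | ⟨t, ht, rfl⟩
    · exact ha
    · rcases f^[t+1] (.inr i) with v | j
      · exact v.2.1
      · exact hb
  · intro j u w hu hw
    rcases j with _ | j
    · simp only [p, List.getElem?_cons_zero, Option.some.injEq] at hu
      rw [hget i 0 (hnpos i), Option.some.injEq] at hw
      obtain ⟨v, hv1, hv2⟩ := hfirst i
      simp only [zero_add, Function.iterate_one] at hw
      rw [hv1] at hw
      rw [← hu, ← hw]
      exact hv2
    · have hlen : (p i).length = nn i + 1 := by simp [p]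
      have hlt : j + 1 + 1 < (p i).length := by
        by_contra hcon
        rw [List.getElem?_eq_none (by omega)] at hw
        exact absurd hw (by simp)
      rw [hget i j (by omega), Option.some.injEq] at hu
      rw [hget i (j+1) (by omega), Option.some.injEq] at hw
      rw [← hu, ← hw]
      exact hstep i j (by omega)
  · intro i j hij v hvi hvj
    rw [hmem] at hvi hvj
    rcases hvi with h | ⟨s, hs, hsv⟩
    · exact Or.inl h
    rcases hvj with h | ⟨t, ht, htv⟩
    · exact Or.inl h
    right
    by_contra hvb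
    have h1 : s + 1 < nn i := by
      by_contra hcon
      have h4 : nn i = s + 1 := by omega
      obtain ⟨j, hj⟩ := hnend i
      rw [← h4, hj] at hsv
      exact hvb hsv.symm
    have h2 : t + 1 < nn j := by
      by_contra hcon
      have h4 : nn j = t + 1 := by omega
      obtain ⟨j', hj⟩ := hnend j
      rw [← h4, hj] at htv
      exact hvb htv.symm
    obtain ⟨x, hx⟩ := hnmin i (s+1) (by omega) h1
    obtain ⟨y, hy⟩ := hnmin j (t+1) (by omega) h2
    rw [hx] at hsv
    rw [hy] at htv
    have h3 : x = y := Subtype.ext (hsv.trans htv.symm)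
    subst h3
    exact hij (hdist i j (s+1) (t+1) h1 h2 (by rw [hx, hy])).1
  · intro i
    obtain ⟨v, hv1, hv2⟩ := hfirst i
    refine ⟨v.1, (hmem i _).2 (Or.inr ⟨0, hnpos i, ?_⟩), v.2.2.1, v.2.2.2⟩
    simp only [zero_add, Function.iterate_one]
    rw [hv1]
    rfl

open Classical in
/-- Hall's theorem gives the injective map -/
lemma exists_inj
    (h : ∀ S ⊆ W, a ∉ S → b ∉ S → (∀ v ∈ S, ¬ r v b) →
      k ≤ ((W \ S).filter (fun w => w ≠ a ∧ w ≠ b ∧ ∃ u ∈ insert a S, r u w)).card) :
    ∃ f : ({v : V // v ∈ W ∧ v ≠ a ∧ v ≠ b} ⊕ Fin k) → ({v : V // v ∈ W ∧ v ≠ a ∧ v ≠ b} ⊕ Fin k),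
      Function.Injective f ∧ ∀ x, ok r W k a b x (f x) := by
  classical
  rw [← Fintype.all_card_le_filter_rel_iff_exists_injective]
  intro S
  by_cases hS : ∃ i, Sum.inr i ∈ S
  · obtain ⟨i0, hi0⟩ := hS
    -- the vertex part
    set S0 : Finset {v : V // v ∈ W ∧ v ≠ a ∧ v ≠ b} := Finset.univ.filter (fun v => Sum.inl v ∈ S)
      with hS0
    have hcardS : S.card ≤ S0.card + k := by
      have h1 : S ⊆ S0.disjSum Finset.univ := by
        intro x hx
        rcases x with v | i
        · rw [Finset.inl_mem_disjSum]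
          simp [hS0, hx]
        · rw [Finset.inr_mem_disjSum]
          exact Finset.mem_univ _
      have h2 := Finset.card_le_card h1
      rw [Finset.card_disjSum, Finset.card_univ, Fintype.card_fin] at h2
      exact h2
    by_cases hb : ∃ v ∈ S0, r v.1 b
    · obtain ⟨v0, hv0, hr0⟩ := hb
      have h1 : S0.disjSum Finset.univ ⊆ Finset.univ.filter (fun y => ∃ x ∈ S, ok r W k a b x y) := by
        intro x hx
        rw [Finset.mem_filter]
        refine ⟨Finset.mem_univ _, ?_⟩
        rcases x with v | i
        · rw [Finset.inl_mem_disjSum] at hx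
          exact ⟨Sum.inl v, (Finset.mem_filter.1 hx).2, Or.inl rfl⟩
        · exact ⟨Sum.inl v0, (Finset.mem_filter.1 hv0).2, hr0⟩
      have h2 := Finset.card_le_card h1
      rw [Finset.card_disjSum, Finset.card_univ, Fintype.card_fin] at h2
      omega
    · push Not at hb
      set SV : Finset V := S0.map (Function.Embedding.subtype _) with hSV
      have hmemSV : ∀ v, v ∈ SV ↔ ∃ h : v ∈ W ∧ v ≠ a ∧ v ≠ b, (⟨v, h⟩ : {v : V // v ∈ W ∧ v ≠ a ∧ v ≠ b}) ∈ S0 := by
        intro v
        simp [hSV]
      have h1 := h SV (fun v hv => ((hmemSV v).1 hv).1.1) (fun hv => ((hmemSV a).1 hv).1.2.1 rfl)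
        (fun hv => ((hmemSV b).1 hv).1.2.2 rfl) (fun v hv => by
          obtain ⟨h1, h2⟩ := (hmemSV v).1 hv
          exact hb _ h2)
      set NB := (W \ SV).filter (fun w => w ≠ a ∧ w ≠ b ∧ ∃ u ∈ insert a SV, r u w) with hNB
      have hNBmem : ∀ w ∈ NB, w ∈ W ∧ w ≠ a ∧ w ≠ b := by
        intro w hw
        rw [hNB, Finset.mem_filter, Finset.mem_sdiff] at hw
        exact ⟨hw.1.1, hw.2.1, hw.2.2.1⟩
      let NB' : Finset {v : V // v ∈ W ∧ v ≠ a ∧ v ≠ b} := Finset.univ.filter (fun v => v.1 ∈ NB)
      have hNBcard : NB'.card = NB.card := by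
        rw [← Finset.card_map (Function.Embedding.subtype _)]
        congr 1
        ext v
        simp only [NB', Finset.mem_map, Finset.mem_filter, Finset.mem_univ, true_and,
          Function.Embedding.coe_subtype, Subtype.exists, exists_and_left, exists_prop,
          exists_eq_right_right]
        constructor
        · rintro ⟨h1, -⟩; exact h1
        · intro h1; exact ⟨h1, hNBmem v h1⟩
      have hdisj : Disjoint S0 NB' := by
        rw [Finset.disjoint_left]
        intro v hv hv'
        have h2 := (Finset.mem_filter.1 hv').2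
        rw [hNB, Finset.mem_filter, Finset.mem_sdiff] at h2
        exact h2.1.2 ((hmemSV v.1).2 ⟨v.2, hv⟩)
      have h2 : (S0 ∪ NB').map ⟨Sum.inl, Sum.inl_injective⟩ ⊆
          Finset.univ.filter (fun y => ∃ x ∈ S, ok r W k a b x y) := by
        intro y hy
        rw [Finset.mem_map] at hy
        obtain ⟨v, hv, rfl⟩ := hy
        rw [Finset.mem_filter]
        refine ⟨Finset.mem_univ _, ?_⟩
        rcases Finset.mem_union.1 hv with hv | hv
        · exact ⟨Sum.inl v, (Finset.mem_filter.1 hv).2, Or.inl rfl⟩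
        · have h3 := (Finset.mem_filter.1 hv).2
          rw [hNB, Finset.mem_filter] at h3
          obtain ⟨-, -, -, u, hu, hr⟩ := h3
          rcases Finset.mem_insert.1 hu with rfl | hu
          · exact ⟨Sum.inr i0, hi0, hr⟩
          · obtain ⟨hu1, hu2⟩ := (hmemSV u).1 hu
            exact ⟨Sum.inl ⟨u, hu1⟩, (Finset.mem_filter.1 hu2).2, Or.inr hr⟩
      have h3 := Finset.card_le_card h2
      rw [Finset.card_map, Finset.card_union_of_disjoint hdisj, hNBcard] at h3
      omega
  · push Not at hS
    apply Finset.card_le_card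
    intro x hx
    rw [Finset.mem_filter]
    refine ⟨Finset.mem_univ _, x, hx, ?_⟩
    rcases x with v | i
    · exact Or.inl rfl
    · exact absurd hx (hS i)

/-- Menger's theorem -/
lemma paths_of_lb (hab : a ≠ b) (ha : a ∈ W) (hb : b ∈ W) (hcard : k + 1 ≤ W.card)
    (h : ∀ A B, A ⊆ W → B ⊆ W → Sep r A B → A.Nonempty → B.Nonempty → k ≤ (W \ (A ∪ B)).card) :
    PathsIn r (W : Set V) k a b := by
  classical
  -- out-neighbourhoods
  have key : ∀ A ⊆ W, A.Nonempty → b ∉ A → (∀ u ∈ A, ¬ r u b) →
      k ≤ ((W \ A).filter (fun w => ∃ u ∈ A, r u w)).card := by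
    intro A hA hne hbA hb'
    have h1 := h A ((W \ A).filter (fun w => ¬ ∃ u ∈ A, r u w)) hA
      ((Finset.filter_subset _ _).trans Finset.sdiff_subset) (by
        intro u hu w hw
        rw [Finset.mem_filter, Finset.mem_sdiff] at hw
        refine ⟨?_, fun hr => hw.2 ⟨u, hu, hr⟩⟩
        rintro rfl
        exact hw.1.2 hu) hne ⟨b, by
        rw [Finset.mem_filter, Finset.mem_sdiff]
        refine ⟨⟨hb, hbA⟩, ?_⟩
        rintro ⟨u, hu, hr⟩
        exact hb' u hu hr⟩
    refine h1.trans (Finset.card_le_card ?_)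
    intro v hv
    rw [Finset.mem_sdiff, Finset.mem_union, not_or, Finset.mem_filter, Finset.mem_sdiff] at hv
    rw [Finset.mem_filter, Finset.mem_sdiff]
    obtain ⟨h2, h3, h4⟩ := hv
    refine ⟨⟨h2, h3⟩, ?_⟩
    by_contra h5
    exact h4 ⟨⟨h2, h3⟩, h5⟩
  by_cases hr : r a b
  · -- adjacent
    rcases Nat.eq_zero_or_pos k with hk | hk
    · subst hk
      exact ⟨fun i => i.elim0, fun i => i.elim0, fun i => i.elim0, fun i => i.elim0⟩
    obtain ⟨k', rfl⟩ : ∃ k', k = k' + 1 := ⟨k - 1, by omega⟩
    have hH : ∀ S ⊆ W, a ∉ S → b ∉ S → (∀ v ∈ S, ¬ r v b) →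
        k' ≤ ((W \ S).filter (fun w => w ≠ a ∧ w ≠ b ∧ ∃ u ∈ insert a S, r u w)).card := by
      intro S hSW haS hbS hS
      by_cases hall : ((W \ (insert a S)).filter (fun w => w ≠ b ∧ ¬ ∃ u ∈ insert a S, r u w)).Nonempty
      · -- proper separation
        have h1 := h (insert a S) ((W \ (insert a S)).filter
          (fun w => w ≠ b ∧ ¬ ∃ u ∈ insert a S, r u w)) (Finset.insert_subset ha hSW)
          ((Finset.filter_subset _ _).trans Finset.sdiff_subset) (by
            intro u hu w hw
            rw [Finset.mem_filter, Finset.mem_sdiff] at hw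
            refine ⟨?_, fun hr => hw.2.2 ⟨u, hu, hr⟩⟩
            rintro rfl
            exact hw.1.2 hu) ⟨a, Finset.mem_insert_self _ _⟩ hall
        have h2 : W \ (insert a S ∪ (W \ (insert a S)).filter
            (fun w => w ≠ b ∧ ¬ ∃ u ∈ insert a S, r u w)) ⊆
            insert b ((W \ S).filter (fun w => w ≠ a ∧ w ≠ b ∧ ∃ u ∈ insert a S, r u w)) := by
          intro v hv
          rw [Finset.mem_sdiff, Finset.mem_union, not_or, Finset.mem_filter, Finset.mem_sdiff] at hv
          obtain ⟨h2, h3, h4⟩ := hv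
          rw [Finset.mem_insert, Finset.mem_filter, Finset.mem_sdiff]
          by_cases hvb : v = b
          · exact Or.inl hvb
          · right
            have h5 : v ≠ a := fun h => h3 (by rw [h]; exact Finset.mem_insert_self _ _)
            have h6 : v ∉ S := fun h => h3 (Finset.mem_insert_of_mem h)
            refine ⟨⟨h2, h6⟩, h5, hvb, ?_⟩
            by_contra h7
            exact h4 ⟨⟨h2, h3⟩, hvb, h7⟩
        have h3 := (h1.trans (Finset.card_le_card h2)).trans (Finset.card_insert_le _ _)
        omega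
      · -- everything else is adjacent
        rw [Finset.not_nonempty_iff_eq_empty] at hall
        have hsub : (W \ (insert a S)).erase b ⊆
            (W \ S).filter (fun w => w ≠ a ∧ w ≠ b ∧ ∃ u ∈ insert a S, r u w) := by
          intro v hv
          rw [Finset.mem_erase, Finset.mem_sdiff] at hv
          obtain ⟨h1, h2, h3⟩ := hv
          rw [Finset.mem_filter, Finset.mem_sdiff]
          refine ⟨⟨h2, fun h => h3 (Finset.mem_insert_of_mem h)⟩,
            fun h => h3 (by rw [h]; exact Finset.mem_insert_self _ _), h1, ?_⟩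
          by_contra h7
          have : v ∈ (W \ (insert a S)).filter (fun w => w ≠ b ∧ ¬ ∃ u ∈ insert a S, r u w) := by
            rw [Finset.mem_filter, Finset.mem_sdiff]
            exact ⟨⟨h2, h3⟩, h1, h7⟩
          rw [hall] at this
          exact absurd this (Finset.notMem_empty v)
        have hbmem : b ∈ W \ (insert a S) := by
          rw [Finset.mem_sdiff, Finset.mem_insert, not_or]
          exact ⟨hb, hab.symm, hbS⟩
        have h1 := Finset.card_le_card hsub
        rw [Finset.card_erase_of_mem hbmem] at h1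
        have h2 : k' + 1 ≤ (W \ (insert a S)).card := by
          rcases S.eq_empty_or_nonempty with hSe | hSne
          · subst hSe
            rw [Finset.card_sdiff_of_subset (Finset.insert_subset ha hSW)]
            simp
            omega
          · have h3 := key S hSW hSne hbS hS
            have h4 : (W \ S).filter (fun w => ∃ u ∈ S, r u w) ⊆ (W \ S).erase b := by
              intro v hv
              rw [Finset.mem_filter] at hv
              rw [Finset.mem_erase]
              refine ⟨?_, hv.1⟩
              rintro rfl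
              obtain ⟨-, u, hu, hr⟩ := hv
              exact hS u hu hr
            have h5 := h3.trans (Finset.card_le_card h4)
            rw [Finset.card_erase_of_mem (Finset.mem_sdiff.2 ⟨hb, hbS⟩)] at h5
            have h6 : W \ insert a S = (W \ S).erase a := by
              ext v
              simp only [Finset.mem_sdiff, Finset.mem_insert, Finset.mem_erase, not_or]
              tauto
            rw [h6, Finset.card_erase_of_mem (Finset.mem_sdiff.2 ⟨ha, haS⟩)]
            exact h5
        omega
    obtain ⟨f, hf, hok⟩ := exists_inj hH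
    obtain ⟨p, hp1, hp2, hp3⟩ := paths_of_inj hab ha hb f hf hok inferInstance
    refine ⟨Fin.cons [a, b] p, ?_, ?_, ?_⟩
    · have aux : ∀ i, p i ≠ [a, b] := by
        intro i hi
        obtain ⟨v, hv, h1, h2⟩ := hp3 i
        rw [hi] at hv
        simp at hv
        rcases hv with h | h
        · exact h1 h
        · exact h2 h
      rw [Fin.cons_injective_iff]
      refine ⟨fun ⟨i, hi⟩ => aux i hi, ?_⟩
      intro i j hij
      by_contra hne
      obtain ⟨v, hv, h1, h2⟩ := hp3 i
      rcases hp2 i j hne v hv (by rw [← hij]; exact hv) with h | h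
      · exact h1 h
      · exact h2 h
    · intro i
      refine Fin.cases ?_ (fun i => ?_) i
      · simp only [Fin.cons_zero]
        refine ⟨rfl, by simp, by simp [hab], ?_, ?_⟩
        · intro v hv
          simp at hv
          rcases hv with rfl | rfl
          · exact ha
          · exact hb
        · intro j u w hu hw
          rcases j with _ | j
          · simp at hu hw
            rw [← hu, ← hw]; exact hr
          · simp at hw
      · simp only [Fin.cons_succ]
        exact hp1 i
    · intro i j
      refine Fin.cases ?_ (fun i => ?_) i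
      · intro _ v hvi _
        simp at hvi
        exact hvi
      · refine Fin.cases ?_ (fun j => ?_) j
        · intro _ v _ hvj
          simp at hvj
          exact hvj
        · intro hij v
          simp only [Fin.cons_succ]
          exact hp2 i j (fun h => hij (by rw [h])) v
  · -- not adjacent
    have hH : ∀ S ⊆ W, a ∉ S → b ∉ S → (∀ v ∈ S, ¬ r v b) →
        k ≤ ((W \ S).filter (fun w => w ≠ a ∧ w ≠ b ∧ ∃ u ∈ insert a S, r u w)).card := by
      intro S hSW haS hbS hS
      have h1 := key (insert a S) (Finset.insert_subset ha hSW) ⟨a, Finset.mem_insert_self _ _⟩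
        (by rw [Finset.mem_insert, not_or]; exact ⟨hab.symm, hbS⟩) (by
          intro u hu
          rcases Finset.mem_insert.1 hu with rfl | hu
          · exact hr
          · exact hS u hu)
      refine h1.trans (Finset.card_le_card ?_)
      intro v hv
      rw [Finset.mem_filter, Finset.mem_sdiff, Finset.mem_insert, not_or] at hv
      obtain ⟨⟨h2, h3, h4⟩, u, hu, hr'⟩ := hv
      rw [Finset.mem_filter, Finset.mem_sdiff]
      refine ⟨⟨h2, h4⟩, h3, ?_, u, hu, hr'⟩
      rintro rfl
      rcases Finset.mem_insert.1 hu with rfl | hu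
      · exact hr hr'
      · exact hS u hu hr'
    obtain ⟨f, hf, hok⟩ := exists_inj hH
    obtain ⟨p, hp1, hp2, hp3⟩ := paths_of_inj hab ha hb f hf hok inferInstance
    refine ⟨p, ?_, hp1, hp2⟩
    intro i j hij
    by_contra hne
    obtain ⟨v, hv, h1, h2⟩ := hp3 i
    rcases hp2 i j hne v hv (by rw [← hij]; exact hv) with h | h
    · exact h1 h
    · exact h2 h

end hall

end Pool.Agent.Helper37.Mader
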