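import Mathlib

set_option autoImplicit false

/-!
# Separations of a digraph and vertex weights

Tight separations, crossing of tight separations.
-/

namespace Pool.Agent.Helper37.Mader

variable {V : Type*} [Fintype V] [DecidableEq V]

/-- `A` and `B` are disjoint and there is no arc from `A` to `B` -/
def Sep (r : V → V → Prop) (A B : Finset V) : Prop := ∀ a ∈ A, ∀ b ∈ B, a ≠ b ∧ ¬ r a b

/-- the separator of the separation `(A, B)` -/
def TT (A B : Finset V) : Finset V := (A ∪ B)ᶜ

/-- the weight of a set -/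
def WW (w : V → ℕ) (S : Finset V) : ℕ := ∑ v ∈ S, w v

/-- every separator has weight at least `c` -/
def LB (r : V → V → Prop) (w : V → ℕ) (c : ℕ) : Prop :=
  ∀ A B, Sep r A B → A.Nonempty → B.Nonempty → c ≤ WW w (TT A B)

/-- tight separations -/
structure Tight (r : V → V → Prop) (w : V → ℕ) (c : ℕ) (A B : Finset V) : Prop where
  sep : Sep r A B
  neA : A.Nonempty
  neB : B.Nonempty
  wt : WW w (TT A B) = c

omit [Fintype V] [DecidableEq V] in
lemma Sep.swap {r : V → V → Prop} {A B : Finset V} (h : Sep r A B) : Sep (flip r) B A :=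
  fun b hb a ha => ⟨(h a ha b hb).1.symm, (h a ha b hb).2⟩

lemma TT_comm (A B : Finset V) : TT A B = TT B A := by
  unfold TT; rw [Finset.union_comm]

lemma Tight.swap {r : V → V → Prop} {w : V → ℕ} {c : ℕ} {A B : Finset V} (h : Tight r w c A B) :
    Tight (flip r) w c B A :=
  ⟨h.sep.swap, h.neB, h.neA, by rw [TT_comm]; exact h.wt⟩

lemma LB.swap {r : V → V → Prop} {w : V → ℕ} {c : ℕ} (h : LB r w c) : LB (flip r) w c := by
  intro A B hs hA hB
  rw [TT_comm]
  exact h B A (hs.swap) hB hA

omit [Fintype V] [DecidableEq V] in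
lemma Sep.mono {r : V → V → Prop} {A B A' B' : Finset V} (h : Sep r A B) (hA : A' ⊆ A)
    (hB : B' ⊆ B) : Sep r A' B' := fun a ha b hb => h a (hA ha) b (hB hb)

omit [Fintype V] in
lemma Sep.union_left {r : V → V → Prop} {A B A' : Finset V} (h : Sep r A B) (h' : Sep r A' B) :
    Sep r (A ∪ A') B := by
  intro a ha b hb
  rcases Finset.mem_union.1 ha with h1 | h1
  · exact h a h1 b hb
  · exact h' a h1 b hb

omit [Fintype V] in
lemma Sep.union_right {r : V → V → Prop} {A B B' : Finset V} (h : Sep r A B) (h' : Sep r A B') :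
    Sep r A (B ∪ B') := by
  intro a ha b hb
  rcases Finset.mem_union.1 hb with h1 | h1
  · exact h a ha b h1
  · exact h' a ha b h1

omit [Fintype V] in
lemma Sep.meet {r : V → V → Prop} {A B A' B' : Finset V} (h : Sep r A B) (h' : Sep r A' B') :
    Sep r (A ∩ A') (B ∪ B') :=
  (h.mono Finset.inter_subset_left subset_rfl).union_right
    (h'.mono Finset.inter_subset_right subset_rfl)

omit [Fintype V] in
lemma Sep.join {r : V → V → Prop} {A B A' B' : Finset V} (h : Sep r A B) (h' : Sep r A' B') :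
    Sep r (A ∪ A') (B ∩ B') :=
  (h.mono subset_rfl Finset.inter_subset_left).union_left
    (h'.mono subset_rfl Finset.inter_subset_right)

omit [Fintype V] [DecidableEq V] in
lemma Sep.not_mem {r : V → V → Prop} {A B : Finset V} (h : Sep r A B) {v : V} (hv : v ∈ A) :
    v ∉ B := fun hb => (h v hv v hb).1 rfl

lemma mem_TT {A B : Finset V} {v : V} : v ∈ TT A B ↔ v ∉ A ∧ v ∉ B := by
  simp [TT]

omit [Fintype V] [DecidableEq V] in
lemma WW_mono {w : V → ℕ} {S S' : Finset V} (h : S ⊆ S') : WW w S ≤ WW w S' :=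
  Finset.sum_le_sum_of_subset h

lemma WW_eq (w : V → ℕ) (S : Finset V) : WW w S = ∑ v, if v ∈ S then w v else 0 := by
  unfold WW; simp

omit [Fintype V] in
lemma WW_lt {w : V → ℕ} (hw : ∀ v, 0 < w v) {S S' : Finset V} (h : S ⊆ S')
    (hle : WW w S' ≤ WW w S) : S' ⊆ S := by
  intro v hv
  by_contra hvS
  have : WW w (insert v S) ≤ WW w S' := WW_mono (Finset.insert_subset hv h)
  unfold WW at *
  rw [Finset.sum_insert hvS] at this
  have := hw v
  omega

omit [Fintype V] in
lemma WW_union_disj (w : V → ℕ) {S S' : Finset V} (h : Disjoint S S') :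
    WW w (S ∪ S') = WW w S + WW w S' := Finset.sum_union h

omit [Fintype V] in
lemma WW_union_le (w : V → ℕ) (S S' : Finset V) : WW w (S ∪ S') ≤ WW w S + WW w S' := by
  have := Finset.sum_union_inter (s₁ := S) (s₂ := S') (f := w)
  unfold WW
  omega

omit [Fintype V] [DecidableEq V] in
lemma WW_le_of_le {w w' : V → ℕ} (h : ∀ v, w' v ≤ w v) (S : Finset V) : WW w' S ≤ WW w S :=
  Finset.sum_le_sum fun v _ => h v

/-- the modular identity for the two corners -/
lemma WW_corner {r : V → V → Prop} (w : V → ℕ) {A B A' B' : Finset V} (h : Sep r A B)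
    (h' : Sep r A' B') :
    WW w (TT (A ∩ A') (B ∪ B')) + WW w (TT (A ∪ A') (B ∩ B')) = WW w (TT A B) + WW w (TT A' B') := by
  simp only [WW_eq, ← Finset.sum_add_distrib]
  apply Finset.sum_congr rfl
  intro v _
  have h1 : v ∈ A → v ∉ B := fun hv => h.not_mem hv
  have h2 : v ∈ A' → v ∉ B' := fun hv => h'.not_mem hv
  by_cases hA : v ∈ A <;> by_cases hB : v ∈ B <;> by_cases hA' : v ∈ A' <;>
    by_cases hB' : v ∈ B' <;> simp_all [mem_TT]

section tight

variable {r : V → V → Prop} {w : V → ℕ} {c : ℕ} (hLB : LB r w c) (hw : ∀ v, 0 < w v)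
include hLB

/-- if both corners are proper then both are tight -/
lemma Tight.corners {A B A' B' : Finset V} (h : Tight r w c A B) (h' : Tight r w c A' B')
    (hA : (A ∩ A').Nonempty) (hB : (B ∩ B').Nonempty) :
    Tight r w c (A ∩ A') (B ∪ B') ∧ Tight r w c (A ∪ A') (B ∩ B') := by
  have h1 := WW_corner w h.sep h'.sep
  have h2 := hLB _ _ (h.sep.meet h'.sep) hA (h.neB.mono Finset.subset_union_left)
  have h3 := hLB _ _ (h.sep.join h'.sep) (h.neA.mono Finset.subset_union_left) hB
  rw [h.wt, h'.wt] at h1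
  exact ⟨⟨h.sep.meet h'.sep, hA, h.neB.mono Finset.subset_union_left, by omega⟩,
    ⟨h.sep.join h'.sep, h.neA.mono Finset.subset_union_left, hB, by omega⟩⟩

include hw

/-- monotonicity: smaller head, larger tail -/
lemma Tight.mono_of_B {A B A' B' : Finset V} (h : Tight r w c A B) (h' : Tight r w c A' B')
    (hB : B' ⊆ B) : A ⊆ A' := by
  have hs : Sep r (A ∪ A') B' := (h.sep.mono subset_rfl hB).union_left h'.sep
  have h1 := hLB _ _ hs (h.neA.mono Finset.subset_union_left) h'.neB
  have hsub : TT (A ∪ A') B' ⊆ TT A' B' := by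
    intro v hv
    rw [mem_TT] at hv ⊢
    simp only [Finset.mem_union, not_or] at hv
    exact ⟨hv.1.2, hv.2⟩
  have h2 := WW_lt hw hsub (by rw [h'.wt]; exact h1)
  intro v hv
  by_contra hvA'
  have hvB' : v ∉ B' := hs.not_mem (Finset.mem_union_left _ hv)
  have := h2 (mem_TT.2 ⟨hvA', hvB'⟩)
  rw [mem_TT] at this
  exact this.1 (Finset.mem_union_left _ hv)

lemma Tight.mono_of_A {A B A' B' : Finset V} (h : Tight r w c A B) (h' : Tight r w c A' B')
    (hA : A' ⊆ A) : B ⊆ B' :=
  Tight.mono_of_B (r := flip r) hLB.swap hw h.swap h'.swap hA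

end tight

/-- `E` is the tail side of a tight separation and minimal with this property -/
def IsEnd (r : V → V → Prop) (w : V → ℕ) (c : ℕ) (E : Finset V) : Prop :=
  (∃ B, Tight r w c E B) ∧ ∀ A B, Tight r w c A B → A ⊆ E → A = E

/-- `E` is the tail side of a tight separation and contained in or disjoint from every other -/
def Good (r : V → V → Prop) (w : V → ℕ) (c : ℕ) (E : Finset V) : Prop :=
  (∃ B, Tight r w c E B) ∧ ∀ A B, Tight r w c A B → E ⊆ A ∨ Disjoint E A

lemma Good.isEnd {r : V → V → Prop} {w : V → ℕ} {c : ℕ} {E : Finset V} (h : Good r w c E) :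
    IsEnd r w c E := by
  refine ⟨h.1, fun A B hA hAE => ?_⟩
  rcases h.2 A B hA with h1 | h1
  · exact subset_antisymm hAE h1
  · exfalso
    obtain ⟨a, ha⟩ := hA.neA
    exact (Finset.disjoint_left.1 h1 (hAE ha)) ha

section crossing

variable {r : V → V → Prop} {w w' : V → ℕ} {c : ℕ} (hLB : LB r w c)
  (hle : ∀ v, w' v ≤ w v) (heq : ∀ A B, Tight r w c A B → ∀ v ∈ TT A B, w' v = w v)

include hLB in
lemma crossing_disj {E BE A B : Finset V} (hE : Tight r w c E BE)
    (hmin : ∀ A B, Tight r w c A B → A ⊆ E → A = E) (hA : Tight r w c A B)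
    (hAE : (A ∩ E).Nonempty) (hEA : ¬ E ⊆ A) : B ∩ BE = ∅ := by
  by_contra hne
  have h1 := (hA.corners hLB hE hAE (Finset.nonempty_iff_ne_empty.2 hne)).1
  have h2 := hmin _ _ h1 Finset.inter_subset_right
  exact hEA (by rw [← h2]; exact Finset.inter_subset_left)

include hLB hle heq in
lemma crossing_lt {E BE A B : Finset V} (hE : Tight r w c E BE)
    (hmin : ∀ A B, Tight r w c A B → A ⊆ E → A = E) (hA : Tight r w c A B)
    (hAE : (A ∩ E).Nonempty) (hEA : ¬ E ⊆ A) : WW w' B + WW w' (A ∩ E) < WW w' E := by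
  have hd := crossing_disj hLB hE hmin hA hAE hEA
  have h2 := hLB _ _ (hA.sep.meet hE.sep) hAE (hA.neB.mono Finset.subset_union_left)
  have h3 : WW w (TT (A ∩ E) (B ∪ BE)) ≠ c := by
    intro h4
    have h5 : Tight r w c (A ∩ E) (B ∪ BE) :=
      ⟨hA.sep.meet hE.sep, hAE, hA.neB.mono Finset.subset_union_left, h4⟩
    have h6 := hmin _ _ h5 Finset.inter_subset_right
    exact hEA (by rw [← h6]; exact Finset.inter_subset_left)
  have h4 : WW w (TT E BE) < WW w (TT (A ∩ E) (B ∪ BE)) := by rw [hE.wt]; omega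
  -- pointwise comparison
  have key : WW w' B + WW w' (A ∩ E) + WW w (TT (A ∩ E) (B ∪ BE)) ≤ WW w' E + WW w (TT E BE) := by
    simp only [WW_eq, ← Finset.sum_add_distrib]
    apply Finset.sum_le_sum
    intro v _
    have a1 : v ∈ A → v ∉ B := fun hv => hA.sep.not_mem hv
    have a2 : v ∈ E → v ∉ BE := fun hv => hE.sep.not_mem hv
    have a3 : v ∈ B → v ∉ BE := fun hv hv' => by
      have : v ∈ B ∩ BE := Finset.mem_inter.2 ⟨hv, hv'⟩
      rw [hd] at this
      exact absurd this (Finset.notMem_empty v)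
    have a4 : v ∈ TT A B → w' v = w v := heq A B hA v
    have a5 : v ∈ TT E BE → w' v = w v := heq E BE hE v
    rw [mem_TT] at a4 a5
    have a6 := hle v
    by_cases hA : v ∈ A <;> by_cases hB : v ∈ B <;> by_cases hE : v ∈ E <;>
      by_cases hBE : v ∈ BE <;> simp_all [mem_TT]
  omega

end crossing

end Pool.Agent.Helper37.Mader
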