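import Pool.Agent.Helper37.Mader.Basic

set_option autoImplicit false

/-!
# The counting argument for intersecting families
-/

namespace Pool.Agent.Helper37.Mader

variable {V : Type*} [Fintype V] [DecidableEq V]

/-- an intersecting family `D` with leaves `L` and neighbourhood function `N` -/
structure Sys (N : Finset V → Finset V) (w : V → ℕ) (c : ℕ) (D L : Finset (Finset V)) : Prop where
  inter : ∀ A ∈ D, ∀ A' ∈ D, (A ∩ A').Nonempty →
    A ∩ A' ∈ D ∧ A ∪ A' ∈ D ∧ N A ∪ N A' ⊆ N (A ∩ A') ∪ N (A ∪ A')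
  ne : ∀ A ∈ D, A.Nonempty
  leaf : ∀ A ∈ D, ∃ E ∈ L, E ⊆ A
  good : ∀ E ∈ L, ∀ A ∈ D, E ⊆ A ∨ Disjoint E A
  sub : L ⊆ D
  wt : ∀ A ∈ D, WW w (N A) ≤ c
  big : ∀ F ⊆ D, F.Nonempty → c ≤ WW w (N (F.sup id))

variable {N : Finset V → Finset V} {w : V → ℕ} {c : ℕ}

omit [Fintype V] in
lemma WW_sup_le {ι : Type*} [DecidableEq ι] (w : V → ℕ) (s : Finset ι) (f : ι → Finset V) (c : ℕ)
    (h : ∀ i ∈ s, WW w (f i) ≤ c) : WW w (s.sup f) ≤ s.card * c := by
  induction s using Finset.induction_on with
  | empty => simp [WW]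
  | insert a s ha ih =>
    rw [Finset.sup_insert, Finset.card_insert_of_notMem ha]
    have h1 := WW_union_le w (f a) (s.sup f)
    have h2 := h a (Finset.mem_insert_self _ _)
    have h3 := ih (fun i hi => h i (Finset.mem_insert_of_mem hi))
    rw [Nat.succ_mul]
    have : f a ⊔ s.sup f = f a ∪ s.sup f := rfl
    rw [this]
    omega

omit [Fintype V] in
/-- one level -/
lemma level (hN1 : ∀ A, Disjoint (N A) A) (hN2 : ∀ A A', A ⊆ A' → N A ⊆ A' ∪ N A')
    (hN3 : ∀ F : Finset (Finset V), N (F.sup id) ⊆ F.sup N) {D L : Finset (Finset V)}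
    (hS : Sys N w c D L) (X : Set V) (LX : Finset (Finset V))
    (hLX : ∀ E, E ∈ LX ↔ E ∈ L ∧ (E : Set V) ⊆ X) (hne : LX.Nonempty) (AX : Finset (Finset V))
    (hAX : ∀ A ∈ AX, A ∈ D ∧ (A : Set V) ⊆ X ∧ ∀ E ∈ L, ∀ E' ∈ L, E ⊆ A → E' ⊆ A → E = E') :
    WW w (AX.sup N ∩ LX.sup id) + c ≤ LX.card * c := by
  classical
  -- the maximal single-leaf member for each leaf
  have hM : ∀ E ∈ LX, ∃ M ∈ D, E ⊆ M ∧ (∀ E' ∈ L, E' ⊆ M → E' = E) ∧
      ∀ A ∈ AX, E ⊆ A → A ⊆ M := by
    intro E hE
    have hEL := ((hLX E).1 hE).1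
    -- candidates
    let C := D.filter (fun M => E ⊆ M ∧ ∀ E' ∈ L, E' ⊆ M → E' = E)
    let C' := C.filter (fun M => ∃ F ⊆ AX, M = E ∪ F.sup id)
    have hC' : C'.Nonempty := by
      refine ⟨E, ?_⟩
      simp only [C', C, Finset.mem_filter]
      refine ⟨⟨hS.sub hEL, subset_rfl, ?_⟩, ∅, Finset.empty_subset _, by simp⟩
      intro E' hE' hE'E
      rcases hS.good E hEL E' (hS.sub hE') with h | h
      · exact subset_antisymm hE'E h
      · exfalso
        obtain ⟨x, hx⟩ := hS.ne E' (hS.sub hE')
        exact Finset.disjoint_left.1 h (hE'E hx) hx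
    obtain ⟨M, hM, hmax⟩ := Finset.exists_max_image C' Finset.card hC'
    simp only [C', C, Finset.mem_filter] at hM
    obtain ⟨⟨hMD, hEM, hMs⟩, F, hF, hMF⟩ := hM
    refine ⟨M, hMD, hEM, hMs, ?_⟩
    intro A hA hEA
    obtain ⟨hAD, hAX', hAs⟩ := hAX A hA
    obtain ⟨x, hx⟩ := hS.ne E (hS.sub hEL)
    have hint : (A ∩ M).Nonempty := ⟨x, Finset.mem_inter.2 ⟨hEA hx, hEM hx⟩⟩
    have hun := (hS.inter A hAD M hMD hint).2.1
    have hmem : A ∪ M ∈ C' := by
      simp only [C', C, Finset.mem_filter]
      refine ⟨⟨hun, hEM.trans Finset.subset_union_right, ?_⟩, insert A F, ?_, ?_⟩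
      · intro E' hE' hE'U
        rcases hS.good E' hE' A hAD with h | h
        · exact hAs E' hE' E hEL h hEA
        · rcases hS.good E' hE' M hMD with h' | h'
          · exact hMs E' hE' h'
          · exfalso
            obtain ⟨y, hy⟩ := hS.ne E' (hS.sub hE')
            rcases Finset.mem_union.1 (hE'U hy) with h'' | h''
            · exact Finset.disjoint_left.1 h hy h''
            · exact Finset.disjoint_left.1 h' hy h''
      · exact Finset.insert_subset hA hF
      · rw [Finset.sup_insert, hMF]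
        ext z
        simp only [Finset.mem_union, id_eq, Finset.sup_eq_union]
        tauto
    have hc := hmax _ hmem
    have hMU : M ⊆ A ∪ M := Finset.subset_union_right
    have := Finset.eq_of_subset_of_card_le hMU hc
    rw [this]
    exact Finset.subset_union_left
  choose! M hMD hEM hMs hMmax using hM
  set U := (LX.image M).sup id with hU
  have hUsub : ∀ E ∈ LX, M E ⊆ U := fun E hE =>
    Finset.le_sup (f := id) (Finset.mem_image_of_mem M hE)
  have h1 : AX.sup N ∩ LX.sup id ⊆ LX.sup (fun E => N (M E)) ∩ U := by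
    intro v hv
    rw [Finset.mem_inter, Finset.mem_sup, Finset.mem_sup] at hv
    obtain ⟨⟨A, hA, hvA⟩, E', hE', hvE'⟩ := hv
    obtain ⟨hAD, hAXs, hAs⟩ := hAX A hA
    obtain ⟨E, hE, hEA⟩ := hS.leaf A hAD
    have hELX : E ∈ LX := (hLX E).2 ⟨hE, (Finset.coe_subset.2 hEA).trans hAXs⟩
    have hAM := hMmax E hELX A hA hEA
    have hvM : v ∉ M E := by
      intro hvM
      have hE'L := ((hLX E').1 hE').1
      rcases hS.good E' hE'L (M E) (hMD E hELX) with h | h
      · have := hMs E hELX E' hE'L h
        subst this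
        exact Finset.disjoint_left.1 (hN1 A) hvA (hEA hvE')
      · exact Finset.disjoint_left.1 h hvE' hvM
    have hvN : v ∈ N (M E) := by
      rcases Finset.mem_union.1 (hN2 A (M E) hAM hvA) with h | h
      · exact absurd h hvM
      · exact h
    rw [Finset.mem_inter, Finset.mem_sup]
    exact ⟨⟨E, hELX, hvN⟩, hUsub E' hE' (hEM E' hE' hvE')⟩
  have hNU : N U ⊆ LX.sup (fun E => N (M E)) := by
    refine (hN3 _).trans ?_
    intro v hv
    rw [Finset.mem_sup] at hv ⊢
    obtain ⟨A, hA, hvA⟩ := hv
    obtain ⟨E, hE, rfl⟩ := Finset.mem_image.1 hA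
    exact ⟨E, hE, hvA⟩
  have hbig : c ≤ WW w (N U) := by
    apply hS.big
    · intro A hA
      obtain ⟨E, hE, rfl⟩ := Finset.mem_image.1 hA
      exact hMD E hE
    · exact hne.image M
  have hdisj : Disjoint (LX.sup (fun E => N (M E)) ∩ U) (N U) := by
    rw [Finset.disjoint_left]
    intro v hv hv'
    exact Finset.disjoint_left.1 (hN1 U) hv' (Finset.mem_inter.1 hv).2
  have h2 : WW w (LX.sup (fun E => N (M E)) ∩ U ∪ N U) ≤ WW w (LX.sup (fun E => N (M E))) :=
    WW_mono (Finset.union_subset Finset.inter_subset_left hNU)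
  rw [WW_union_disj w hdisj] at h2
  have h3 := WW_sup_le w LX (fun E => N (M E)) c (fun E hE => hS.wt _ (hMD E hE))
  have h4 : WW w (AX.sup N ∩ LX.sup id) ≤ WW w (LX.sup (fun E => N (M E)) ∩ U) := WW_mono h1
  omega

/-- the counting lemma -/
lemma count (hN1 : ∀ A, Disjoint (N A) A) (hN2 : ∀ A A', A ⊆ A' → N A ⊆ A' ∪ N A')
    (hN3 : ∀ F : Finset (Finset V), N (F.sup id) ⊆ F.sup N) (n : ℕ) :
    ∀ (D L : Finset (Finset V)), L.card = n → Sys N w c D L → L.Nonempty →
      WW w (D.sup N ∩ L.sup id) + c ≤ L.card * c := by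
  classical
  induction n using Nat.strong_induction_on with
  | _ n ih =>
    intro D L hn hS hne
    by_cases hsingle : ∀ A ∈ D, ∀ E ∈ L, ∀ E' ∈ L, E ⊆ A → E' ⊆ A → E = E'
    · exact level hN1 hN2 hN3 hS Set.univ L (fun E => by simp) hne D
        (fun A hA => ⟨hA, by simp, hsingle A hA⟩)
    · push Not at hsingle
      -- minimal multi-leaf member
      let C := D.filter (fun A => ∃ E ∈ L, ∃ E' ∈ L, E ⊆ A ∧ E' ⊆ A ∧ E ≠ E')
      have hC : C.Nonempty := by
        obtain ⟨A, hA, E, hE, E', hE', h1, h2, h3⟩ := hsingle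
        exact ⟨A, Finset.mem_filter.2 ⟨hA, E, hE, E', hE', h1, h2, h3⟩⟩
      obtain ⟨X, hX, hmin⟩ := Finset.exists_min_image C Finset.card hC
      obtain ⟨hXD, E1, hE1, E2, hE2, hE1X, hE2X, hE12⟩ := Finset.mem_filter.1 hX
      set LX := L.filter (fun E => E ⊆ X) with hLX
      set AX := D.filter (fun A => A ⊆ X ∧ ∀ E ∈ L, ∀ E' ∈ L, E ⊆ A → E' ⊆ A → E = E') with hAX
      set D' := D.filter (fun A => X ⊆ A ∨ Disjoint X A) with hD'
      set L' := insert X (L.filter (fun E => ¬ E ⊆ X)) with hL'
      have hXL : X ∉ L.filter (fun E => ¬ E ⊆ X) := by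
        simp
      have hcard : L'.card + LX.card = L.card + 1 := by
        rw [hL', Finset.card_insert_of_notMem hXL, hLX]
        have := Finset.card_filter_add_card_filter_not (s := L) (fun E => E ⊆ X)
        omega
      have hLX2 : 2 ≤ LX.card := by
        have : ({E1, E2} : Finset (Finset V)) ⊆ LX := by
          intro E hE
          rw [Finset.mem_insert, Finset.mem_singleton] at hE
          rcases hE with rfl | rfl
          · exact Finset.mem_filter.2 ⟨hE1, hE1X⟩
          · exact Finset.mem_filter.2 ⟨hE2, hE2X⟩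
        have h := Finset.card_le_card this
        rwa [Finset.card_pair hE12] at h
      have h1 := level hN1 hN2 hN3 hS (X : Set V) LX
        (fun E => by simp [hLX]) ⟨E1, Finset.mem_filter.2 ⟨hE1, hE1X⟩⟩ AX
        (fun A hA => by
          obtain ⟨ha, hb, hc⟩ := Finset.mem_filter.1 hA
          exact ⟨ha, Finset.coe_subset.2 hb, hc⟩)
      have hS' : Sys N w c D' L' := by
        refine ⟨?_, ?_, ?_, ?_, ?_, ?_, ?_⟩
        · intro A hA A' hA' hint
          obtain ⟨hAD, hAX⟩ := Finset.mem_filter.1 hA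
          obtain ⟨hAD', hAX'⟩ := Finset.mem_filter.1 hA'
          obtain ⟨h2, h3, h4⟩ := hS.inter A hAD A' hAD' hint
          refine ⟨Finset.mem_filter.2 ⟨h2, ?_⟩, Finset.mem_filter.2 ⟨h3, ?_⟩, h4⟩
          · rcases hAX with h5 | h5
            · rcases hAX' with h6 | h6
              · exact Or.inl (Finset.subset_inter h5 h6)
              · exact Or.inr (h6.mono_right Finset.inter_subset_right)
            · exact Or.inr (h5.mono_right Finset.inter_subset_left)
          · rcases hAX with h5 | h5
            · exact Or.inl (h5.trans Finset.subset_union_left)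
            · rcases hAX' with h6 | h6
              · exact Or.inl (h6.trans Finset.subset_union_right)
              · exact Or.inr (Finset.disjoint_union_right.2 ⟨h5, h6⟩)
        · intro A hA
          exact hS.ne A (Finset.mem_filter.1 hA).1
        · intro A hA
          obtain ⟨hAD, hAX⟩ := Finset.mem_filter.1 hA
          obtain ⟨E, hE, hEA⟩ := hS.leaf A hAD
          by_cases hEX : E ⊆ X
          · refine ⟨X, Finset.mem_insert_self _ _, ?_⟩
            rcases hAX with h | h
            · exact h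
            · exfalso
              obtain ⟨x, hx⟩ := hS.ne E (hS.sub hE)
              exact Finset.disjoint_left.1 h (hEX hx) (hEA hx)
          · exact ⟨E, Finset.mem_insert_of_mem (Finset.mem_filter.2 ⟨hE, hEX⟩), hEA⟩
        · intro E hE A hA
          rcases Finset.mem_insert.1 hE with rfl | hE
          · exact (Finset.mem_filter.1 hA).2
          · exact hS.good E (Finset.mem_filter.1 hE).1 A (Finset.mem_filter.1 hA).1
        · intro E hE
          rcases Finset.mem_insert.1 hE with rfl | hE
          · exact Finset.mem_filter.2 ⟨hXD, Or.inl subset_rfl⟩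
          · obtain ⟨hEL, hEX⟩ := Finset.mem_filter.1 hE
            refine Finset.mem_filter.2 ⟨hS.sub hEL, ?_⟩
            rcases hS.good E hEL X hXD with h | h
            · exact absurd h hEX
            · exact Or.inr h.symm
        · intro A hA
          exact hS.wt A (Finset.mem_filter.1 hA).1
        · intro F hF hFne
          exact hS.big F (hF.trans (Finset.filter_subset _ _)) hFne
      have h2 := ih L'.card (by omega) D' L' rfl hS' ⟨X, Finset.mem_insert_self _ _⟩
      have hcover : D.sup N ∩ L.sup id ⊆ (AX.sup N ∩ LX.sup id) ∪ (D'.sup N ∩ L'.sup id) := by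
        intro v hv
        rw [Finset.mem_inter, Finset.mem_sup, Finset.mem_sup] at hv
        obtain ⟨⟨A, hA, hvA⟩, E, hE, hvE⟩ := hv
        simp only [id_eq] at hvE
        have hvL' : v ∈ L'.sup id := by
          rw [Finset.mem_sup]
          by_cases hEX : E ⊆ X
          · exact ⟨X, Finset.mem_insert_self _ _, hEX hvE⟩
          · exact ⟨E, Finset.mem_insert_of_mem (Finset.mem_filter.2 ⟨hE, hEX⟩), hvE⟩
        by_cases hAD' : A ∈ D'
        · exact Finset.mem_union_right _ (Finset.mem_inter.2
            ⟨Finset.mem_sup.2 ⟨A, hAD', hvA⟩, hvL'⟩)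
        · have h3 : ¬ X ⊆ A ∧ ¬ Disjoint X A := by
            refine ⟨fun h => hAD' (Finset.mem_filter.2 ⟨hA, Or.inl h⟩),
              fun h => hAD' (Finset.mem_filter.2 ⟨hA, Or.inr h⟩)⟩
          have hint : (A ∩ X).Nonempty := by
            rw [Finset.not_disjoint_iff] at h3
            obtain ⟨x, hx1, hx2⟩ := h3.2
            exact ⟨x, Finset.mem_inter.2 ⟨hx2, hx1⟩⟩
          obtain ⟨h4, h5, h6⟩ := hS.inter A hA X hXD hint
          rcases Finset.mem_union.1 (h6 (Finset.mem_union_left _ hvA)) with h7 | h7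
          · by_cases hEX : E ⊆ X
            · apply Finset.mem_union_left
              rw [Finset.mem_inter, Finset.mem_sup, Finset.mem_sup]
              refine ⟨⟨A ∩ X, ?_, h7⟩, E, Finset.mem_filter.2 ⟨hE, hEX⟩, hvE⟩
              refine Finset.mem_filter.2 ⟨h4, Finset.inter_subset_right, ?_⟩
              by_contra hcon
              push Not at hcon
              obtain ⟨F1, hF1, F2, hF2, h8, h9, h10⟩ := hcon
              have h11 : A ∩ X ∈ C := Finset.mem_filter.2 ⟨h4, F1, hF1, F2, hF2, h8, h9, h10⟩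
              have h12 := hmin _ h11
              have h13 := Finset.eq_of_subset_of_card_le
                (Finset.inter_subset_right : A ∩ X ⊆ X) h12
              exact h3.1 (by rw [← h13]; exact Finset.inter_subset_left)
            · apply Finset.mem_union_right
              have hvX : v ∉ X := by
                intro hvX
                rcases hS.good E hE X hXD with h | h
                · exact hEX h
                · exact Finset.disjoint_left.1 h hvE hvX
              have hvNX : v ∈ N X := by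
                rcases Finset.mem_union.1 (hN2 _ X Finset.inter_subset_right h7) with h | h
                · exact absurd h hvX
                · exact h
              exact Finset.mem_inter.2 ⟨Finset.mem_sup.2
                ⟨X, Finset.mem_filter.2 ⟨hXD, Or.inl subset_rfl⟩, hvNX⟩, hvL'⟩
          · apply Finset.mem_union_right
            exact Finset.mem_inter.2 ⟨Finset.mem_sup.2
              ⟨A ∪ X, Finset.mem_filter.2 ⟨h5, Or.inl Finset.subset_union_right⟩, h7⟩, hvL'⟩
      have h3 := (WW_mono (w := w) hcover).trans (WW_union_le w _ _)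
      have h4 : L'.card * c + LX.card * c = L.card * c + c := by
        rw [← Nat.add_mul, hcard]; ring
      omega

end Pool.Agent.Helper37.Mader
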