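import Pool.Agent.Helper37.Mader.Count

set_option autoImplicit false

/-!
# The light fragment lemma
-/

namespace Pool.Agent.Helper37.Mader

variable {V : Type*} [Fintype V] [DecidableEq V]

/-- the situation of a counterexample to the light fragment lemma -/
structure Ctx (r : V → V → Prop) (w w' : V → ℕ) (c : ℕ) : Prop where
  lb : LB r w c
  pos : ∀ v, 0 < w v
  le : ∀ v, w' v ≤ w v
  eq : ∀ A B, Tight r w c A B → ∀ v ∈ TT A B, w' v = w v
  cov : ∀ v, 0 < w' v → ∃ A B, Tight r w c A B ∧ v ∈ TT A B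
  bigA : ∀ A B, Tight r w c A B → c < WW w' A
  bigB : ∀ A B, Tight r w c A B → c < WW w' B

variable {r : V → V → Prop} {w w' : V → ℕ} {c : ℕ}

lemma Ctx.swap (h : Ctx r w w' c) : Ctx (flip r) w w' c where
  lb := h.lb.swap
  pos := h.pos
  le := h.le
  eq := fun A B hA v hv => h.eq B A hA.swap v (by rwa [TT_comm])
  cov := fun v hv => by
    obtain ⟨A, B, hA, hvT⟩ := h.cov v hv
    exact ⟨B, A, hA.swap, by rwa [TT_comm]⟩
  bigA := fun A B hA => h.bigB B A hA.swap
  bigB := fun A B hA => h.bigA B A hA.swap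

/-- configurations: a good end and a tight fragment of the same sign disjoint from it -/
structure Conf (r : V → V → Prop) (w : V → ℕ) (c : ℕ) (F A : Finset V) : Prop where
  good : Good r w c F
  tight : ∃ B, Tight r w c A B
  disj : Disjoint F A

/-- an end which is not good gives a small configuration -/
lemma nongood (n : ℕ) : ∀ (r : V → V → Prop), Ctx r w w' c → ∀ E : Finset V, WW w' E = n →
    IsEnd r w c E → ¬ Good r w c E →
    (∃ F A, Conf r w c F A ∧ WW w' Aᶜ ≤ n + c) ∨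
      (∃ F A, Conf (flip r) w c F A ∧ WW w' Aᶜ ≤ n + c) := by
  classical
  induction n using Nat.strong_induction_on with
  | _ n ih =>
    intro r hC E hn hE hng
    obtain ⟨⟨BE, hEB⟩, hmin⟩ := hE
    -- the crossing separations
    let S : Finset (Finset V × Finset V) := Finset.univ.filter
      (fun p => Tight r w c p.1 p.2 ∧ (p.1 ∩ E).Nonempty ∧ ¬ E ⊆ p.1)
    have hS : S.Nonempty := by
      unfold Good at hng
      push Not at hng
      obtain ⟨A, B, hA, h1, h2⟩ := hng ⟨BE, hEB⟩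
      refine ⟨(A, B), Finset.mem_filter.2 ⟨Finset.mem_univ _, hA, ?_, h1⟩⟩
      rw [Finset.not_disjoint_iff] at h2
      obtain ⟨x, hx1, hx2⟩ := h2
      exact ⟨x, Finset.mem_inter.2 ⟨hx2, hx1⟩⟩
    obtain ⟨⟨A, B⟩, hAS, hAmin⟩ := Finset.exists_min_image S (fun p => p.2.card) hS
    obtain ⟨-, hA, hAE, hEA⟩ := Finset.mem_filter.1 hAS
    simp only at hA hAE hEA
    have hdisj := crossing_disj hC.lb hEB hmin hA hAE hEA
    have hlt := crossing_lt hC.lb hC.le hC.eq hEB hmin hA hAE hEA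
    -- `B` is an end for the reversed digraph
    have hBend : IsEnd (flip r) w c B := by
      refine ⟨⟨A, hA.swap⟩, ?_⟩
      intro B' A' hB' hsub
      have hA' : Tight r w c A' B' := hB'.swap
      have hAA' : A ⊆ A' := Tight.mono_of_B hC.lb hC.pos hA hA' hsub
      have hmem : (A', B') ∈ S := by
        refine Finset.mem_filter.2 ⟨Finset.mem_univ _, hA', ?_, ?_⟩
        · obtain ⟨x, hx⟩ := hAE
          rw [Finset.mem_inter] at hx
          exact ⟨x, Finset.mem_inter.2 ⟨hAA' hx.1, hx.2⟩⟩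
        · intro hEA'
          have h1 : B' ⊆ BE := Tight.mono_of_A hC.lb hC.pos hA' hEB hEA'
          obtain ⟨y, hy⟩ := hA'.neB
          have : y ∈ B ∩ BE := Finset.mem_inter.2 ⟨hsub hy, h1 hy⟩
          rw [hdisj] at this
          exact absurd this (Finset.notMem_empty y)
      exact Finset.eq_of_subset_of_card_le hsub (hAmin _ hmem)
    have hreg : WW w' BEᶜ ≤ n + c := by
      have h1 : BEᶜ ⊆ E ∪ TT E BE := by
        intro v hv
        rw [Finset.mem_compl] at hv
        by_cases hvE : v ∈ E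
        · exact Finset.mem_union_left _ hvE
        · exact Finset.mem_union_right _ (mem_TT.2 ⟨hvE, hv⟩)
      have h2 := (WW_mono (w := w') h1).trans (WW_union_le w' _ _)
      have h3 := WW_le_of_le hC.le (TT E BE)
      rw [hEB.wt] at h3
      omega
    by_cases hgB : Good (flip r) w c B
    · right
      refine ⟨B, BE, ⟨hgB, ⟨E, hEB.swap⟩, ?_⟩, hreg⟩
      rw [Finset.disjoint_iff_inter_eq_empty]
      exact hdisj
    · rcases ih (WW w' B) (by omega) (flip r) hC.swap B rfl hBend hgB with h | h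
      · obtain ⟨F', A', hF', h'⟩ := h
        exact Or.inr ⟨F', A', hF', by omega⟩
      · obtain ⟨F', A', hF', h'⟩ := h
        exact Or.inl ⟨F', A', hF', by omega⟩

/-- the measure of a configuration -/
def meas (w' : V → ℕ) (A : Finset V) : ℕ := WW w' Aᶜ * (Fintype.card V + 1) + Aᶜ.card

lemma meas_lt {A A' : Finset V} (h : WW w' A'ᶜ < WW w' Aᶜ) : meas w' A' < meas w' A := by
  unfold meas
  have h1 : A'ᶜ.card ≤ Fintype.card V := Finset.card_le_univ _
  have h2 : (WW w' A'ᶜ + 1) * (Fintype.card V + 1) ≤ WW w' Aᶜ * (Fintype.card V + 1) :=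
    Nat.mul_le_mul_right _ h
  rw [Nat.add_mul] at h2
  omega

/-- out-neighbourhood -/
def NN (r : V → V → Prop) [DecidableRel r] (A : Finset V) : Finset V :=
  Finset.univ.filter (fun v => v ∉ A ∧ ∃ a ∈ A, r a v)

lemma mem_NN [DecidableRel r] {A : Finset V} {v : V} : v ∈ NN r A ↔ v ∉ A ∧ ∃ a ∈ A, r a v := by
  simp [NN]

lemma sep_NN [DecidableRel r] (A : Finset V) : Sep r A (A ∪ NN r A)ᶜ := by
  intro a ha b hb
  rw [Finset.mem_compl, Finset.mem_union, not_or, mem_NN] at hb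
  refine ⟨?_, fun h => hb.2 ⟨hb.1, a, ha, h⟩⟩
  rintro rfl
  exact hb.1 ha

lemma TT_NN [DecidableRel r] (A : Finset V) : TT A (A ∪ NN r A)ᶜ = NN r A := by
  ext v
  rw [mem_TT, Finset.mem_compl, Finset.mem_union, mem_NN]
  by_cases hv : v ∈ A <;> simp [hv]

lemma Tight.NN_eq [DecidableRel r] (hLB : LB r w c) (hpos : ∀ v, 0 < w v) {A B : Finset V}
    (h : Tight r w c A B) : NN r A = TT A B := by
  have h1 : NN r A ⊆ TT A B := by
    intro v hv
    rw [mem_NN] at hv
    rw [mem_TT]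
    obtain ⟨hv1, a, ha, hr⟩ := hv
    exact ⟨hv1, fun hb => (h.sep a ha v hb).2 hr⟩
  have h2 : B ⊆ (A ∪ NN r A)ᶜ := by
    intro b hb
    rw [Finset.mem_compl, Finset.mem_union, not_or]
    refine ⟨fun ha => h.sep.not_mem ha hb, fun hn => ?_⟩
    exact (mem_TT.1 (h1 hn)).2 hb
  have h3 := hLB _ _ (sep_NN (r := r) A) h.neA (h.neB.mono h2)
  rw [TT_NN] at h3
  exact subset_antisymm h1 (WW_lt hpos h1 (by rw [h.wt]; exact h3))

lemma corner_key (w : V → ℕ) {A B A0 B0 E : Finset V} (hA : Sep r A B) (hA0 : Sep r A0 B0)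
    (hBB : B ∩ B0 = ∅) (hEA : Disjoint E A) (hEA0 : Disjoint E A0) :
    WW w E + WW w (TT (A ∩ A0) (B ∪ B0)) ≤ WW w (TT A B) + WW w (TT A0 B0) := by
  simp only [WW_eq, ← Finset.sum_add_distrib]
  apply Finset.sum_le_sum
  intro x _
  have a1 : x ∈ A → x ∉ B := fun hv => hA.not_mem hv
  have a2 : x ∈ A0 → x ∉ B0 := fun hv => hA0.not_mem hv
  have a3 : x ∈ B → x ∉ B0 := fun hv hv' => by
    have : x ∈ B ∩ B0 := Finset.mem_inter.2 ⟨hv, hv'⟩
    rw [hBB] at this
    exact absurd this (Finset.notMem_empty x)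
  have a4 : x ∈ E → x ∉ A := fun h => Finset.disjoint_left.1 hEA h
  have a5 : x ∈ E → x ∉ A0 := fun h => Finset.disjoint_left.1 hEA0 h
  clear hA hA0 hBB hEA hEA0
  by_cases hA : x ∈ A <;> by_cases hB : x ∈ B <;> by_cases hE : x ∈ E <;>
    by_cases hA0 : x ∈ A0 <;> by_cases hB0 : x ∈ B0 <;> simp_all [mem_TT]

/-- the core: there is no minimal configuration -/
lemma core (hC : Ctx r w w' c) {F A0 : Finset V} (hF : Conf r w c F A0)
    (hmin1 : ∀ F' A', Conf r w c F' A' → meas w' A0 ≤ meas w' A')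
    (hmin2 : ∀ F' A', Conf (flip r) w c F' A' → meas w' A0 ≤ meas w' A') : False := by
  classical
  obtain ⟨B0, hA0⟩ := hF.tight
  have hA0big : c < WW w A0 := (hC.bigA _ _ hA0).trans_le (WW_le_of_le hC.le _)
  -- ends disjoint from `F` and `A0` are good
  have hgood : ∀ E, IsEnd r w c E → Disjoint E F → Disjoint E A0 → Good r w c E := by
    intro E hE hEF hEA0
    by_contra hng
    have h1 : WW w' E + WW w' F ≤ WW w' A0ᶜ := by
      rw [← WW_union_disj w' hEF]
      apply WW_mono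
      apply Finset.union_subset
      · intro v hv
        rw [Finset.mem_compl]
        exact fun h => Finset.disjoint_left.1 hEA0 hv h
      · intro v hv
        rw [Finset.mem_compl]
        exact fun h => Finset.disjoint_left.1 hF.disj hv h
    obtain ⟨BF, hBF⟩ := hF.good.1
    have h2 := hC.bigA _ _ hBF
    rcases nongood _ r hC E rfl hE hng with h | h
    · obtain ⟨F', A', hF', h'⟩ := h
      have := hmin1 F' A' hF'
      have := meas_lt (w' := w') (A := A0) (A' := A') (by omega)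
      omega
    · obtain ⟨F', A', hF', h'⟩ := h
      have := hmin2 F' A' hF'
      have := meas_lt (w' := w') (A := A0) (A' := A') (by omega)
      omega
  set D : Finset (Finset V) := Finset.univ.filter
    (fun A => (∃ B, Tight r w c A B) ∧ Disjoint A A0) with hD
  set L : Finset (Finset V) := D.filter (fun E => ∀ A ∈ D, A ⊆ E → A = E) with hL
  have hmemD : ∀ {A : Finset V}, A ∈ D ↔ (∃ B, Tight r w c A B) ∧ Disjoint A A0 := by
    intro A; simp [hD]
  have hFD : F ∈ D := hmemD.2 ⟨hF.good.1, hF.disj⟩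
  have hFL : F ∈ L := by
    refine Finset.mem_filter.2 ⟨hFD, fun A hA hAF => ?_⟩
    obtain ⟨⟨B, hB⟩, -⟩ := hmemD.1 hA
    exact hF.good.isEnd.2 A B hB hAF
  have hLend : ∀ E ∈ L, IsEnd r w c E := by
    intro E hE
    obtain ⟨hED, hEmin⟩ := Finset.mem_filter.1 hE
    obtain ⟨hEB, hEA0⟩ := hmemD.1 hED
    refine ⟨hEB, fun A B hA hAE => hEmin A (hmemD.2 ⟨⟨B, hA⟩, ?_⟩) hAE⟩
    exact hEA0.mono_left hAE
  have hLgood : ∀ E ∈ L, Good r w c E := by
    intro E hE
    by_cases hEF : E = F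
    · rw [hEF]; exact hF.good
    · obtain ⟨hED, hEmin⟩ := Finset.mem_filter.1 hE
      obtain ⟨⟨BE, hEB⟩, hEA0⟩ := hmemD.1 hED
      apply hgood E (hLend E hE) _ hEA0
      rcases hF.good.2 E BE hEB with h | h
      · exact absurd (hEmin F hFD h).symm hEF
      · exact h.symm
  have hN1 : ∀ A, Disjoint (NN r A) A := by
    intro A
    rw [Finset.disjoint_left]
    intro v hv
    exact (mem_NN.1 hv).1
  have hN2 : ∀ A A', A ⊆ A' → NN r A ⊆ A' ∪ NN r A' := by
    intro A A' hAA' v hv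
    rw [mem_NN] at hv
    obtain ⟨-, a, ha, hr⟩ := hv
    rw [Finset.mem_union, mem_NN]
    by_cases hvA' : v ∈ A'
    · exact Or.inl hvA'
    · exact Or.inr ⟨hvA', a, hAA' ha, hr⟩
  have hN3 : ∀ G : Finset (Finset V), NN r (G.sup id) ⊆ G.sup (NN r) := by
    intro G v hv
    rw [mem_NN] at hv
    obtain ⟨hv1, a, ha, hr⟩ := hv
    rw [Finset.mem_sup] at ha
    obtain ⟨A, hA, haA⟩ := ha
    rw [Finset.mem_sup]
    refine ⟨A, hA, mem_NN.2 ⟨?_, a, haA, hr⟩⟩
    intro hvA
    exact hv1 (Finset.mem_sup.2 ⟨A, hA, hvA⟩)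
  have hinter : ∀ A ∈ D, ∀ A' ∈ D, (A ∩ A').Nonempty →
      A ∩ A' ∈ D ∧ A ∪ A' ∈ D ∧ NN r A ∪ NN r A' ⊆ NN r (A ∩ A') ∪ NN r (A ∪ A') := by
    intro A hA A' hA' hint
    obtain ⟨⟨B, hB⟩, hd⟩ := hmemD.1 hA
    obtain ⟨⟨B', hB'⟩, hd'⟩ := hmemD.1 hA'
    have hBB : (B ∩ B').Nonempty := by
      by_contra hne
      rw [Finset.not_nonempty_iff_eq_empty] at hne
      have h1 := WW_corner w hB.sep hB'.sep
      have h2 := hC.lb _ _ (hB.sep.meet hB'.sep) hint (hB.neB.mono Finset.subset_union_left)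
      rw [hB.wt, hB'.wt, hne] at h1
      have h3 : A0 ⊆ TT (A ∪ A') ∅ := by
        intro v hv
        rw [mem_TT, Finset.mem_union, not_or]
        exact ⟨⟨fun h => Finset.disjoint_left.1 hd h hv, fun h => Finset.disjoint_left.1 hd' h hv⟩,
          Finset.notMem_empty v⟩
      have h4 := WW_mono (w := w) h3
      omega
    obtain ⟨h1, h2⟩ := hB.corners hC.lb hB' hint hBB
    refine ⟨hmemD.2 ⟨⟨_, h1⟩, hd.mono_left Finset.inter_subset_left⟩,
      hmemD.2 ⟨⟨_, h2⟩, Finset.disjoint_union_left.2 ⟨hd, hd'⟩⟩, ?_⟩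
    rw [hB.NN_eq hC.lb hC.pos, hB'.NN_eq hC.lb hC.pos, h1.NN_eq hC.lb hC.pos,
      h2.NN_eq hC.lb hC.pos]
    intro v hv
    have a1 : v ∈ A → v ∉ B := fun h => hB.sep.not_mem h
    have a2 : v ∈ A' → v ∉ B' := fun h => hB'.sep.not_mem h
    simp only [Finset.mem_union, mem_TT, Finset.mem_inter] at hv ⊢
    tauto
  have hS : Sys (NN r) w c D L := by
    refine ⟨hinter, ?_, ?_, ?_, Finset.filter_subset _ _, ?_, ?_⟩
    · intro A hA
      obtain ⟨⟨B, hB⟩, -⟩ := hmemD.1 hA
      exact hB.neA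
    · intro A hA
      obtain ⟨E, hE, hEmin⟩ := Finset.exists_min_image (D.filter (fun E => E ⊆ A)) Finset.card
        ⟨A, Finset.mem_filter.2 ⟨hA, subset_rfl⟩⟩
      obtain ⟨hED, hEA⟩ := Finset.mem_filter.1 hE
      refine ⟨E, Finset.mem_filter.2 ⟨hED, fun A' hA' hsub => ?_⟩, hEA⟩
      exact Finset.eq_of_subset_of_card_le hsub
        (hEmin A' (Finset.mem_filter.2 ⟨hA', hsub.trans hEA⟩))
    · intro E hE A hA
      obtain ⟨⟨B, hB⟩, -⟩ := hmemD.1 hA
      exact (hLgood E hE).2 A B hB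
    · intro A hA
      obtain ⟨⟨B, hB⟩, -⟩ := hmemD.1 hA
      rw [hB.NN_eq hC.lb hC.pos, hB.wt]
    · intro G hG hGne
      by_cases hU : (G.sup id ∪ NN r (G.sup id))ᶜ.Nonempty
      · have hne : (G.sup id).Nonempty := by
          obtain ⟨A, hA⟩ := hGne
          obtain ⟨⟨B, hB⟩, -⟩ := hmemD.1 (hG hA)
          exact hB.neA.mono (Finset.le_sup (f := id) hA)
        have := hC.lb _ _ (sep_NN (r := r) (G.sup id)) hne hU
        rwa [TT_NN] at this
      · rw [Finset.not_nonempty_iff_eq_empty] at hU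
        have h1 : A0 ⊆ NN r (G.sup id) := by
          intro v hv
          have h2 : v ∉ (G.sup id ∪ NN r (G.sup id))ᶜ := by rw [hU]; exact Finset.notMem_empty v
          rw [Finset.mem_compl, not_not, Finset.mem_union] at h2
          rcases h2 with h2 | h2
          · exfalso
            rw [Finset.mem_sup] at h2
            obtain ⟨A, hA, hvA⟩ := h2
            exact Finset.disjoint_left.1 (hmemD.1 (hG hA)).2 hvA hv
          · exact h2
        exact (hA0big.le).trans (WW_mono h1)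
  have hcount := count hN1 hN2 hN3 L.card D L rfl hS ⟨F, hFL⟩
  -- the coverage
  have hcov : ∀ v ∈ L.sup id, 0 < w' v → v ∈ (D.sup (NN r) ∩ L.sup id) ∪ TT A0 B0 := by
    intro v hv hv'
    have hvL := hv
    rw [Finset.mem_sup] at hv
    obtain ⟨E, hE, hvE⟩ := hv
    simp only [id_eq] at hvE
    obtain ⟨A, B, hA, hvT⟩ := hC.cov v hv'
    have hEg := hLgood E hE
    have hEA0 : Disjoint E A0 := (hmemD.1 (Finset.mem_filter.1 hE).1).2
    rw [mem_TT] at hvT
    have hEA : Disjoint E A := by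
      rcases hEg.2 A B hA with h | h
      · exact absurd (h hvE) hvT.1
      · exact h
    by_cases hAA0 : Disjoint A A0
    · apply Finset.mem_union_left
      refine Finset.mem_inter.2 ⟨Finset.mem_sup.2 ⟨A, hmemD.2 ⟨⟨B, hA⟩, hAA0⟩, ?_⟩, hvL⟩
      rw [hA.NN_eq hC.lb hC.pos, mem_TT]
      exact hvT
    · have hint : (A ∩ A0).Nonempty := by
        rw [Finset.not_disjoint_iff] at hAA0
        obtain ⟨x, hx1, hx2⟩ := hAA0
        exact ⟨x, Finset.mem_inter.2 ⟨hx1, hx2⟩⟩
      by_cases hBB : (B ∩ B0).Nonempty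
      · have hj := (hA.corners hC.lb hA0 hint hBB).2
        have hconf : Conf r w c E (A ∪ A0) := ⟨hEg, ⟨_, hj⟩, Finset.disjoint_union_right.2 ⟨hEA, hEA0⟩⟩
        have h1 := hmin1 E (A ∪ A0) hconf
        have h2 : (A ∪ A0)ᶜ ⊆ A0ᶜ := Finset.compl_subset_compl.2 Finset.subset_union_right
        have h3 : WW w' (A ∪ A0)ᶜ ≤ WW w' A0ᶜ := WW_mono h2
        have h4 : A0ᶜ.card ≤ (A ∪ A0)ᶜ.card := by
          unfold meas at h1
          have h5 : WW w' (A ∪ A0)ᶜ * (Fintype.card V + 1) ≤ WW w' A0ᶜ * (Fintype.card V + 1) :=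
            Nat.mul_le_mul_right _ h3
          omega
        have h5 := Finset.eq_of_subset_of_card_le h2 h4
        have h6 : A ⊆ A0 := by
          intro x hx
          by_contra hxA0
          have h7 : x ∈ A0ᶜ := Finset.mem_compl.2 hxA0
          rw [← h5, Finset.mem_compl] at h7
          exact h7 (Finset.mem_union_left _ hx)
        have h7 : B0 ⊆ B := Tight.mono_of_A hC.lb hC.pos hA0 hA h6
        apply Finset.mem_union_right
        rw [mem_TT]
        exact ⟨fun h => Finset.disjoint_left.1 hEA0 hvE h, fun h => hvT.2 (h7 h)⟩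
      · exfalso
        rw [Finset.not_nonempty_iff_eq_empty] at hBB
        have h1 := hC.lb _ _ (hA.sep.meet hA0.sep) hint (hA.neB.mono Finset.subset_union_left)
        have key := corner_key w hA.sep hA0.sep hBB hEA hEA0
        obtain ⟨BE, hBE⟩ := hEg.1
        have h2 := hC.bigA _ _ hBE
        have h3 := WW_le_of_le hC.le E
        rw [hA.wt, hA0.wt] at key
        omega
  -- conclusion
  have h1 : WW w' (L.sup id) ≤ WW w ((D.sup (NN r) ∩ L.sup id) ∪ TT A0 B0) := by
    simp only [WW_eq]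
    apply Finset.sum_le_sum
    intro v _
    by_cases hv : v ∈ L.sup id
    · rw [if_pos hv]
      rcases Nat.eq_zero_or_pos (w' v) with h0 | h0
      · rw [h0]; exact Nat.zero_le _
      · rw [if_pos (hcov v hv h0)]
        exact hC.le v
    · rw [if_neg hv]; exact Nat.zero_le _
  have h2 := WW_union_le w (D.sup (NN r) ∩ L.sup id) (TT A0 B0)
  rw [hA0.wt] at h2
  have h3 : WW w' (L.sup id) = ∑ E ∈ L, WW w' E := by
    have : L.sup id = L.biUnion id := by
      ext v; simp [Finset.mem_sup]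
    rw [this]
    unfold WW
    rw [Finset.sum_biUnion]
    · rfl
    · intro E hE E' hE' hne
      simp only [Function.onFun, id_eq]
      obtain ⟨⟨BE', hBE'⟩, -⟩ := hmemD.1 (Finset.mem_filter.1 hE').1
      rcases (hLgood E hE).2 E' BE' hBE' with h | h
      · exfalso
        exact hne ((Finset.mem_filter.1 hE').2 E (Finset.mem_filter.1 hE).1 h)
      · exact h
  have h4 : L.card * c + L.card ≤ ∑ E ∈ L, WW w' E := by
    have : ∑ E ∈ L, (c + 1) ≤ ∑ E ∈ L, WW w' E := by
      apply Finset.sum_le_sum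
      intro E hE
      obtain ⟨BE, hBE⟩ := (hLgood E hE).1
      exact hC.bigA _ _ hBE
    rw [Finset.sum_const, smul_eq_mul, Nat.mul_add, Nat.mul_one] at this
    exact this
  have h5 : 0 < L.card := Finset.card_pos.2 ⟨F, hFL⟩
  omega

/-- a fragment of smallest measure is good -/
lemma good_of_min (hC : Ctx r w w' c) {E BE : Finset V} (hE : Tight r w c E BE)
    (hmin : ∀ A B, Tight r w c A B → WW w' E * (Fintype.card V + 1) + E.card ≤
      WW w' A * (Fintype.card V + 1) + A.card)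
    (hmin' : ∀ A B, Tight r w c A B → WW w' E * (Fintype.card V + 1) + E.card ≤
      WW w' B * (Fintype.card V + 1) + B.card) : Good r w c E := by
  have hend : ∀ A B, Tight r w c A B → A ⊆ E → A = E := by
    intro A B hA hsub
    have h1 := hmin A B hA
    have h2 : WW w' A * (Fintype.card V + 1) ≤ WW w' E * (Fintype.card V + 1) :=
      Nat.mul_le_mul_right _ (WW_mono hsub)
    exact Finset.eq_of_subset_of_card_le hsub (by omega)
  refine ⟨⟨BE, hE⟩, fun A B hA => ?_⟩
  by_contra hcon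
  push Not at hcon
  obtain ⟨h1, h2⟩ := hcon
  have hint : (A ∩ E).Nonempty := by
    rw [Finset.not_disjoint_iff] at h2
    obtain ⟨x, hx1, hx2⟩ := h2
    exact ⟨x, Finset.mem_inter.2 ⟨hx2, hx1⟩⟩
  have h3 := crossing_lt hC.lb hC.le hC.eq hE hend hA hint h1
  have h4 := hmin' A B hA
  have h5 : (WW w' B + 1) * (Fintype.card V + 1) ≤ WW w' E * (Fintype.card V + 1) :=
    Nat.mul_le_mul_right _ (by omega)
  rw [Nat.add_mul] at h5
  have h6 : B.card ≤ Fintype.card V := Finset.card_le_univ _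
  omega

lemma conf_of_good (hC : Ctx r w w' c) {F : Finset V} (hF : Good r w c F) :
    ∃ A, Conf r w c F A := by
  obtain ⟨BF, hBF⟩ := hF.1
  have h1 := hC.bigA _ _ hBF
  obtain ⟨v, hv, hv'⟩ : ∃ v ∈ F, 0 < w' v := by
    by_contra hcon
    push Not at hcon
    have : WW w' F = 0 := Finset.sum_eq_zero fun v hv => Nat.le_zero.1 (hcon v hv)
    omega
  obtain ⟨A, B, hA, hvT⟩ := hC.cov v hv'
  refine ⟨A, hF, ⟨B, hA⟩, ?_⟩
  rcases hF.2 A B hA with h | h
  · exact absurd (h hv) (mem_TT.1 hvT).1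
  · exact h

/-- **The light fragment lemma.** -/
theorem lfl (hlb : LB r w c) (hpos : ∀ v, 0 < w v) (hle : ∀ v, w' v ≤ w v)
    (heq : ∀ A B, Tight r w c A B → ∀ v ∈ TT A B, w' v = w v)
    (hcov : ∀ v, 0 < w' v → ∃ A B, Tight r w c A B ∧ v ∈ TT A B)
    (hex : ∃ A B, Tight r w c A B) :
    ∃ A B, Tight r w c A B ∧ (WW w' A ≤ c ∨ WW w' B ≤ c) := by
  classical
  by_contra hcon
  push Not at hcon
  have hC : Ctx r w w' c := ⟨hlb, hpos, hle, heq, hcov, fun A B h => (hcon A B h).1,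
    fun A B h => (hcon A B h).2⟩
  -- a good end
  have hgood : (∃ F, Good r w c F) ∨ (∃ F, Good (flip r) w c F) := by
    let S : Finset (Finset V) := Finset.univ.filter
      (fun E => (∃ B, Tight r w c E B) ∨ (∃ B, Tight (flip r) w c E B))
    obtain ⟨A, B, hA⟩ := hex
    obtain ⟨E, hE, hmin⟩ := Finset.exists_min_image S
      (fun E => WW w' E * (Fintype.card V + 1) + E.card)
      ⟨A, Finset.mem_filter.2 ⟨Finset.mem_univ _, Or.inl ⟨B, hA⟩⟩⟩
    rcases (Finset.mem_filter.1 hE).2 with ⟨BE, h⟩ | ⟨BE, h⟩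
    · left
      refine ⟨E, good_of_min hC h (fun A B h' => hmin A ?_) (fun A B h' => hmin B ?_)⟩
      · exact Finset.mem_filter.2 ⟨Finset.mem_univ _, Or.inl ⟨B, h'⟩⟩
      · exact Finset.mem_filter.2 ⟨Finset.mem_univ _, Or.inr ⟨A, h'.swap⟩⟩
    · right
      refine ⟨E, good_of_min hC.swap h (fun A B h' => hmin A ?_) (fun A B h' => hmin B ?_)⟩
      · exact Finset.mem_filter.2 ⟨Finset.mem_univ _, Or.inr ⟨B, h'⟩⟩
      · exact Finset.mem_filter.2 ⟨Finset.mem_univ _, Or.inl ⟨A, h'.swap⟩⟩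
  let S : Finset (Finset V) := Finset.univ.filter
    (fun A => (∃ F, Conf r w c F A) ∨ (∃ F, Conf (flip r) w c F A))
  have hS : S.Nonempty := by
    rcases hgood with ⟨F, hF⟩ | ⟨F, hF⟩
    · obtain ⟨A, hA⟩ := conf_of_good hC hF
      exact ⟨A, Finset.mem_filter.2 ⟨Finset.mem_univ _, Or.inl ⟨F, hA⟩⟩⟩
    · obtain ⟨A, hA⟩ := conf_of_good hC.swap hF
      exact ⟨A, Finset.mem_filter.2 ⟨Finset.mem_univ _, Or.inr ⟨F, hA⟩⟩⟩
  obtain ⟨A0, hA0, hmin⟩ := Finset.exists_min_image S (meas w') hS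
  rcases (Finset.mem_filter.1 hA0).2 with ⟨F, h⟩ | ⟨F, h⟩
  · exact core hC h
      (fun F' A' h' => hmin A' (Finset.mem_filter.2 ⟨Finset.mem_univ _, Or.inl ⟨F', h'⟩⟩))
      (fun F' A' h' => hmin A' (Finset.mem_filter.2 ⟨Finset.mem_univ _, Or.inr ⟨F', h'⟩⟩))
  · exact core hC.swap h
      (fun F' A' h' => hmin A' (Finset.mem_filter.2 ⟨Finset.mem_univ _, Or.inr ⟨F', h'⟩⟩))
      (fun F' A' h' => hmin A' (Finset.mem_filter.2 ⟨Finset.mem_univ _, Or.inl ⟨F', h'⟩⟩))

end Pool.Agent.Helper37.Mader
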