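import Pool.Agent.Helper37.Mader.LFL
import Pool.Agent.Helper37.Mader.Menger

set_option autoImplicit false

/-!
# Removable paths
-/

namespace Pool.Agent.Helper37.Mader

variable {V : Type*}

/-- greedy paths -/
lemma exists_walk [DecidableEq V] {r : V → V → Prop} [DecidableRel r] (hirr : ∀ v, ¬ r v v)
    {Z : Finset V} (hne : Z.Nonempty) {m : ℕ}
    (h : ∀ z ∈ Z, m ≤ (Z.filter (fun x => r z x)).card + 1) :
    ∀ j, 1 ≤ j → j ≤ m → ∃ f : ℕ → V, (∀ i < j, f i ∈ Z) ∧
      (∀ i < j, ∀ i' < j, f i = f i' → i = i') ∧ ∀ i, i + 1 < j → r (f i) (f (i+1)) := by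
  intro j hj
  induction j, hj using Nat.le_induction with
  | base =>
    intro _
    obtain ⟨z, hz⟩ := hne
    exact ⟨fun _ => z, fun _ _ => hz, fun i hi i' hi' _ => by omega, fun i hi => by omega⟩
  | succ j hj ih =>
    intro hjm
    obtain ⟨f, hf1, hf2, hf3⟩ := ih (by omega)
    have h1 := h (f (j-1)) (hf1 _ (by omega))
    have h2 : ((Finset.range (j-1)).image f).card < (Z.filter (fun x => r (f (j-1)) x)).card := by
      have := Finset.card_image_le (s := Finset.range (j-1)) (f := f)
      rw [Finset.card_range] at this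
      omega
    obtain ⟨x, hx, hxn⟩ := Finset.exists_mem_notMem_of_card_lt_card h2
    rw [Finset.mem_filter] at hx
    have hxf : ∀ i < j, f i ≠ x := by
      intro i hi hix
      rcases Nat.lt_or_ge i (j-1) with h3 | h3
      · exact hxn (Finset.mem_image.2 ⟨i, Finset.mem_range.2 h3, hix⟩)
      · have : i = j - 1 := by omega
        subst this
        rw [hix] at hx
        exact hirr x hx.2
    refine ⟨fun i => if i = j then x else f i, ?_, ?_, ?_⟩
    · intro i hi
      simp only
      split_ifs with h3
      · exact hx.1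
      · exact hf1 i (by omega)
    · intro i hi i' hi' h3
      simp only at h3
      split_ifs at h3 with h4 h5 h5
      · omega
      · exact absurd h3.symm (hxf i' (by omega))
      · exact absurd h3 (hxf i (by omega))
      · exact hf2 i (by omega) i' (by omega) h3
    · intro i hi
      simp only
      rw [if_neg (by omega : ¬ i = j)]
      split_ifs with h3
      · have : i = j - 1 := by omega
        rw [this]
        exact hx.2
      · exact hf3 i (by omega)

/-- greedy paths -/
lemma exists_path [DecidableEq V] {r : V → V → Prop} [DecidableRel r] (hirr : ∀ v, ¬ r v v)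
    {Z : Finset V} (hne : Z.Nonempty) {m : ℕ} (hm : 1 ≤ m)
    (h : ∀ z ∈ Z, m ≤ (Z.filter (fun x => r z x)).card + 1) :
    ∃ P : Fin m → V, Function.Injective P ∧
      (∀ i j : Fin m, i.val + 1 = j.val → r (P i) (P j)) ∧ ∀ i, P i ∈ Z := by
  obtain ⟨f, hf1, hf2, hf3⟩ := exists_walk hirr hne h m hm le_rfl
  refine ⟨fun i => f i, ?_, ?_, ?_⟩
  · intro i j hij
    exact Fin.ext (hf2 i i.2 j j.2 hij)
  · intro i j hij
    have := hf3 i (by rw [hij]; exact j.2)
    rw [hij] at this
    exact this
  · intro i
    exact hf1 i i.2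

section weights

variable [Fintype V] [DecidableEq V] {r : V → V → Prop}

/-- admissible weights with the smallest possible total -/
lemma exists_min_weight {q M c : ℕ} (hqM : q ≤ M) (hlb : LB r (fun _ => M) c) :
    ∃ u : V → ℕ, (∀ v, q ≤ u v ∧ u v ≤ M) ∧ LB r u c ∧
      ∀ v, q < u v → ∃ A B, Tight r u c A B ∧ v ∈ TT A B := by
  classical
  let S : Set ℕ := {s | ∃ u : V → ℕ, (∀ v, q ≤ u v ∧ u v ≤ M) ∧ LB r u c ∧ ∑ v, u v = s}
  have hS : S.Nonempty := ⟨_, fun _ => M, fun v => ⟨hqM, le_rfl⟩, hlb, rfl⟩
  obtain ⟨u, hu1, hu2, hu3⟩ := Nat.sInf_mem hS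
  refine ⟨u, hu1, hu2, ?_⟩
  intro v hv
  by_contra hcon
  push Not at hcon
  let u' : V → ℕ := Function.update u v (u v - 1)
  have hmem : (∑ x, u' x) ∈ S := by
    refine ⟨u', ?_, ?_, rfl⟩
    · intro x
      by_cases hx : x = v
      · subst hx
        simp only [u', Function.update_self]
        have := (hu1 x).2
        omega
      · simp only [u', Function.update_of_ne hx]
        exact hu1 x
    · intro A B hs hA hB
      have h1 := hu2 A B hs hA hB
      by_cases hvT : v ∈ TT A B
      · have h2 : WW u (TT A B) ≠ c := fun h => hcon A B ⟨hs, hA, hB, h⟩ hvT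
        have h3 : WW u (TT A B) = WW u' (TT A B) + 1 := by
          unfold WW
          rw [← Finset.add_sum_erase _ _ hvT, ← Finset.add_sum_erase _ _ hvT]
          have h4 : ∑ x ∈ (TT A B).erase v, u' x = ∑ x ∈ (TT A B).erase v, u x := by
            apply Finset.sum_congr rfl
            intro x hx
            simp only [u', Function.update_of_ne (Finset.ne_of_mem_erase hx)]
          rw [h4]
          simp only [u', Function.update_self]
          omega
        omega
      · have h3 : WW u (TT A B) = WW u' (TT A B) := by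
          unfold WW
          apply Finset.sum_congr rfl
          intro x hx
          have : x ≠ v := fun h => hvT (h ▸ hx)
          simp only [u', Function.update_of_ne this]
        omega
  have h1 := Nat.sInf_le hmem
  rw [← hu3] at h1
  have h2 : ∑ x, u' x < ∑ x, u x := by
    apply Finset.sum_lt_sum
    · intro x _
      by_cases hx : x = v
      · subst hx
        simp only [u', Function.update_self]
        omega
      · simp only [u', Function.update_of_ne hx]
        exact le_rfl
    · refine ⟨v, Finset.mem_univ _, ?_⟩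
      simp only [u', Function.update_self]
      omega
  omega

/-- the light part of a light tail side contains the path -/
lemma path_of_light [DecidableRel r] (hirr : ∀ v, ¬ r v v) {m k q M : ℕ} (hm : 1 ≤ m)
    (hq : q = k + 1) (hM : M = m * q + 1) {u w' : V → ℕ} (hu : ∀ v, q ≤ u v)
    {A B : Finset V} (hT : Tight r u (k * M) A B) (hA : WW w' A ≤ k * M)
    (hw' : ∀ v, q < u v → w' v = u v)
    (hdeg : ∀ v, 2 * k * m + m ≤ (Finset.univ.filter (fun x => r v x)).card + 1) :
    ∃ P : Fin m → V, Function.Injective P ∧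
      (∀ i j : Fin m, i.val + 1 = j.val → r (P i) (P j)) ∧ ∀ i, u (P i) = q := by
  classical
  set H := A.filter (fun v => q < u v) with hH
  set Z := A.filter (fun v => u v = q) with hZ
  -- sizes
  have hTcard : (TT A B).card ≤ k * m := by
    have h1 : (TT A B).card * q ≤ WW u (TT A B) := by
      unfold WW
      rw [← smul_eq_mul]
      exact Finset.card_nsmul_le_sum _ _ _ (fun v _ => hu v)
    rw [hT.wt, hM] at h1
    by_contra hcon
    push Not at hcon
    have h2 : (k * m + 1) * q ≤ (TT A B).card * q := Nat.mul_le_mul_right _ hcon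
    have h3 : (k * m + 1) * q = k * (m * q + 1) + 1 := by rw [hq]; ring
    omega
  have hHcard : H.card ≤ k * m := by
    have h1 : H.card * q ≤ WW w' H := by
      unfold WW
      rw [← smul_eq_mul]
      refine Finset.card_nsmul_le_sum _ _ _ (fun v hv => ?_)
      rw [hH, Finset.mem_filter] at hv
      rw [hw' v hv.2]
      exact hu v
    have h4 : WW w' H ≤ WW w' A := WW_mono (Finset.filter_subset _ _)
    have h5 := (h1.trans h4).trans hA
    rw [hM] at h5
    by_contra hcon
    push Not at hcon
    have h2 : (k * m + 1) * q ≤ H.card * q := Nat.mul_le_mul_right _ hcon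
    have h3 : (k * m + 1) * q = k * (m * q + 1) + 1 := by rw [hq]; ring
    omega
  have hAHZ : A = H ∪ Z := by
    ext v
    rw [hH, hZ, Finset.mem_union, Finset.mem_filter, Finset.mem_filter]
    constructor
    · intro hv
      have := hu v
      rcases Nat.lt_or_ge q (u v) with h | h
      · exact Or.inl ⟨hv, h⟩
      · exact Or.inr ⟨hv, by omega⟩
    · rintro (h | h)
      · exact h.1
      · exact h.1
  have hsub : ∀ a ∈ A, Finset.univ.filter (fun x => r a x) ⊆
      TT A B ∪ (H ∪ Z.filter (fun x => r a x)) := by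
    intro a ha x hx
    rw [Finset.mem_filter] at hx
    by_cases hxA : x ∈ A
    · rw [hAHZ, Finset.mem_union] at hxA
      rcases hxA with h | h
      · exact Finset.mem_union_right _ (Finset.mem_union_left _ h)
      · exact Finset.mem_union_right _ (Finset.mem_union_right _
          (Finset.mem_filter.2 ⟨h, hx.2⟩))
    · have hxB : x ∉ B := fun h => (hT.sep a ha x h).2 hx.2
      exact Finset.mem_union_left _ (mem_TT.2 ⟨hxA, hxB⟩)
  have hcount : ∀ a ∈ A, m ≤ (Z.filter (fun x => r a x)).card + 1 := by
    intro a ha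
    have h1 := Finset.card_le_card (hsub a ha)
    have h2 := Finset.card_union_le (TT A B) (H ∪ Z.filter (fun x => r a x))
    have h3 := Finset.card_union_le H (Z.filter (fun x => r a x))
    have h4 := hdeg a
    have h5 : 2 * k * m = k * m + k * m := by ring
    omega
  have hZne : Z.Nonempty := by
    by_contra hcon
    rw [Finset.not_nonempty_iff_eq_empty] at hcon
    obtain ⟨a, ha⟩ := hT.neA
    have hA' : A = H := by rw [hAHZ, hcon, Finset.union_empty]
    have h1 : Finset.univ.filter (fun x => r a x) ⊆ TT A B ∪ H.erase a := by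
      intro x hx
      have h2 := hsub a ha hx
      rw [hcon, Finset.filter_empty, Finset.union_empty] at h2
      rw [Finset.mem_filter] at hx
      rcases Finset.mem_union.1 h2 with h | h
      · exact Finset.mem_union_left _ h
      · refine Finset.mem_union_right _ (Finset.mem_erase.2 ⟨?_, h⟩)
        rintro rfl
        exact hirr _ hx.2
    have h2 := Finset.card_le_card h1
    have h3 := Finset.card_union_le (TT A B) (H.erase a)
    have h4 := Finset.card_erase_of_mem (s := H) (a := a) (by rw [← hA']; exact ha)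
    have h5 := hdeg a
    have h6 : 2 * k * m = k * m + k * m := by ring
    have h7 : 0 < H.card := Finset.card_pos.2 ⟨a, by rw [← hA']; exact ha⟩
    omega
  obtain ⟨P, hP1, hP2, hP3⟩ := exists_path hirr hZne hm
    (fun z hz => hcount z (Finset.mem_filter.1 hz).1)
  exact ⟨P, hP1, hP2, fun i => (Finset.mem_filter.1 (hP3 i)).2⟩

/-- existence of a light path -/
lemma exists_light_path [DecidableRel r] (hirr : ∀ v, ¬ r v v) {m k : ℕ} (hm : 1 ≤ m)
    (hne : Nonempty V)
    (hsep : ∀ A B, Sep r A B → A.Nonempty → B.Nonempty → k ≤ (TT A B).card)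
    (hout : ∀ v, 2 * k * m + m ≤ (Finset.univ.filter (fun x => r v x)).card + 1)
    (hin : ∀ v, 2 * k * m + m ≤ (Finset.univ.filter (fun x => r x v)).card + 1) :
    ∃ u : V → ℕ, (∀ v, u v ≤ m * (k + 1) + 1) ∧ LB r u (k * (m * (k + 1) + 1)) ∧
      ∃ P : Fin m → V, Function.Injective P ∧
        (∀ i j : Fin m, i.val + 1 = j.val → r (P i) (P j)) ∧ ∀ i, u (P i) = k + 1 := by
  classical
  have hqM : k + 1 ≤ m * (k + 1) + 1 := by nlinarith
  have hlb : LB r (fun _ => m * (k + 1) + 1) (k * (m * (k + 1) + 1)) := by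
    intro A B hs hA hB
    unfold WW
    rw [Finset.sum_const, smul_eq_mul]
    exact Nat.mul_le_mul_right _ (hsep A B hs hA hB)
  obtain ⟨u, hu1, hu2, hu3⟩ := exists_min_weight hqM hlb
  refine ⟨u, fun v => (hu1 v).2, hu2, ?_⟩
  by_cases hex : ∃ A B, Tight r u (k * (m * (k + 1) + 1)) A B
  · let w' : V → ℕ := fun v =>
      if ∃ A B, Tight r u (k * (m * (k + 1) + 1)) A B ∧ v ∈ TT A B then u v else 0
    have hw'1 : ∀ v, w' v ≤ u v := by
      intro v
      simp only [w']
      split_ifs
      · exact le_rfl
      · exact Nat.zero_le _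
    have hw'2 : ∀ A B, Tight r u (k * (m * (k + 1) + 1)) A B → ∀ v ∈ TT A B, w' v = u v := by
      intro A B h v hv
      simp only [w']
      rw [if_pos ⟨A, B, h, hv⟩]
    have hw'3 : ∀ v, 0 < w' v → ∃ A B, Tight r u (k * (m * (k + 1) + 1)) A B ∧ v ∈ TT A B := by
      intro v hv
      by_contra hcon
      simp only [w', if_neg hcon] at hv
      omega
    have hw'4 : ∀ v, k + 1 < u v → w' v = u v := by
      intro v hv
      obtain ⟨A, B, h, hvT⟩ := hu3 v hv
      exact hw'2 A B h v hvT
    obtain ⟨A, B, hT, hAB⟩ := lfl hu2 (fun v => by have := (hu1 v).1; omega) hw'1 hw'2 hw'3 hex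
    rcases hAB with hA | hB
    · exact path_of_light hirr hm rfl rfl (fun v => (hu1 v).1) hT hA hw'4 hout
    · obtain ⟨P, hP1, hP2, hP3⟩ := path_of_light (r := flip r) (fun v => hirr v) hm rfl rfl
        (fun v => (hu1 v).1) hT.swap hB hw'4 (by
          intro v
          have h := hin v
          convert h using 4
          exact Iff.rfl)
      refine ⟨fun i => P (Fin.rev i), hP1.comp Fin.rev_injective, ?_, fun i => hP3 _⟩
      intro i j hij
      exact hP2 (Fin.rev j) (Fin.rev i) (by
        rw [Fin.val_rev, Fin.val_rev]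
        have := j.2
        omega)
  · have hall : ∀ v, u v = k + 1 := by
      intro v
      by_contra hcon
      have h1 := (hu1 v).1
      obtain ⟨A, B, h, -⟩ := hu3 v (by omega)
      exact hex ⟨A, B, h⟩
    obtain ⟨P, hP1, hP2, -⟩ := exists_path (Z := Finset.univ) hirr
      (Finset.univ_nonempty) hm (fun z _ => by
        have := hout z
        omega)
    exact ⟨P, hP1, hP2, fun i => hall _⟩

/-- deleting a light path -/
lemma sep_after {m k : ℕ} (hk : 1 ≤ k) {u : V → ℕ} (hu : ∀ v, u v ≤ m * (k + 1) + 1)
    (hlb : LB r u (k * (m * (k + 1) + 1))) {P : Fin m → V} (hP : Function.Injective P)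
    (hPu : ∀ i, u (P i) = k + 1) {W : Finset V}
    (hW : W = (Finset.univ.image P)ᶜ) :
    ∀ A B, A ⊆ W → B ⊆ W → Sep r A B → A.Nonempty → B.Nonempty → k ≤ (W \ (A ∪ B)).card := by
  intro A B hA hB hs hAne hBne
  have h1 := hlb A B hs hAne hBne
  have h2 : TT A B ⊆ Finset.univ.image P ∪ (W \ (A ∪ B)) := by
    intro v hv
    rw [mem_TT] at hv
    by_cases hvP : v ∈ Finset.univ.image P
    · exact Finset.mem_union_left _ hvP
    · refine Finset.mem_union_right _ ?_
      rw [Finset.mem_sdiff, Finset.mem_union, not_or]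
      exact ⟨by rw [hW, Finset.mem_compl]; exact hvP, hv⟩
  have h3 : WW u (TT A B) ≤ WW u (Finset.univ.image P) + WW u (W \ (A ∪ B)) :=
    (WW_mono h2).trans (WW_union_le _ _ _)
  have h4 : WW u (Finset.univ.image P) = m * (k + 1) := by
    unfold WW
    rw [Finset.sum_image (fun i _ j _ h => hP h)]
    simp [hPu]
  have h5 : WW u (W \ (A ∪ B)) ≤ (W \ (A ∪ B)).card * (m * (k + 1) + 1) := by
    unfold WW
    rw [← smul_eq_mul]
    exact Finset.sum_le_card_nsmul _ _ _ (fun v _ => hu v)
  by_contra hcon
  push Not at hcon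
  obtain ⟨k', rfl⟩ : ∃ k', k = k' + 1 := ⟨k - 1, by omega⟩
  have h6 : (W \ (A ∪ B)).card * (m * (k' + 1 + 1) + 1) ≤ k' * (m * (k' + 1 + 1) + 1) :=
    Nat.mul_le_mul_right _ (by omega)
  have h7 : (k' + 1) * (m * (k' + 1 + 1) + 1)
      = k' * (m * (k' + 1 + 1) + 1) + (m * (k' + 1 + 1) + 1) := by ring
  omega

end weights

end Pool.Agent.Helper37.Mader
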